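import Mathlib

/-! Hochschild homology of polynormed algebras: definitions. -/

namespace Pool.Agent.HochPhi

/-- Complete Hausdorff locally convex spaces over `ℂ` (the topology is given by seminorms:
Mathlib's `PolynormableSpace`, which over `ℂ` is the same as local convexity). -/
class PolySpace (E : Type) [AddCommGroup E] [Module ℂ E] [UniformSpace E] : Prop where
  uag : IsUniformAddGroup E
  csm : ContinuousSMul ℂ E
  poly : PolynormableSpace ℂ E
  complete : CompleteSpace E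
  t2 : T2Space E

attribute [instance] PolySpace.uag PolySpace.csm PolySpace.poly PolySpace.complete PolySpace.t2

/-- The multiplication of a polynormed algebra: bilinear, associative and jointly continuous on
a complete Hausdorff locally convex space `A`.  No unit is required. -/
structure PolyAlgebra (A : Type) [AddCommGroup A] [Module ℂ A] [UniformSpace A]
    [PolySpace A] where
  mul : A →ₗ[ℂ] A →ₗ[ℂ] A
  assoc : ∀ a b c, mul (mul a b) c = mul a (mul b c)
  cont : Continuous fun p : A × A => mul p.1 p.2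

/-- The actions `l a x = a · x` and `r x a = x · a` of a complete Hausdorff locally convex
bimodule `X` over the polynormed algebra `𝒜`, both jointly continuous. -/
structure Bimodule {A : Type} [AddCommGroup A] [Module ℂ A] [UniformSpace A] [PolySpace A]
    (𝒜 : PolyAlgebra A) (X : Type) [AddCommGroup X] [Module ℂ X] [UniformSpace X]
    [PolySpace X] where
  l : A →ₗ[ℂ] X →ₗ[ℂ] X
  r : X →ₗ[ℂ] A →ₗ[ℂ] X
  l_mul : ∀ a b x, l (𝒜.mul a b) x = l a (l b x)
  r_mul : ∀ x a b, r x (𝒜.mul a b) = r (r x a) b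
  lr : ∀ a x b, r (l a x) b = l a (r x b)
  l_cont : Continuous fun p : A × X => l p.1 p.2
  r_cont : Continuous fun p : X × A => r p.1 p.2

/-- `(T, j)` is a completed projective tensor product `X ⊗^ A ⊗^ ⋯ ⊗^ A` (`n` copies of `A`):
`j (x, a_1, …, a_n) = x ⊗ a_1 ⊗ ⋯ ⊗ a_n` is the universal jointly continuous multilinear map
from `X × A^n` to complete Hausdorff locally convex spaces. -/
structure IsTensor (X A T : Type) [AddCommGroup X] [Module ℂ X] [UniformSpace X]
    [AddCommGroup A] [Module ℂ A] [UniformSpace A]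
    [AddCommGroup T] [Module ℂ T] [UniformSpace T] (n : ℕ)
    (j : X →ₗ[ℂ] MultilinearMap ℂ (fun _ : Fin n => A) T) : Prop where
  cont : Continuous fun p : X × (Fin n → A) => j p.1 p.2
  univ : ∀ (Z : Type) [AddCommGroup Z] [Module ℂ Z] [UniformSpace Z] [PolySpace Z]
    (f : X →ₗ[ℂ] MultilinearMap ℂ (fun _ : Fin n => A) Z),
    (Continuous fun p : X × (Fin n → A) => f p.1 p.2) →
      ∃! F : T →L[ℂ] Z, ∀ x a, F (j x a) = f x a

/-- `(a_0, …, a_n) ↦ (a_0, …, a_i a_{i+1}, …, a_n)`. -/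
def contract {A : Type} [AddCommGroup A] [Module ℂ A] [UniformSpace A] [PolySpace A]
    (𝒜 : PolyAlgebra A) {n : ℕ} (i : Fin n) (a : Fin (n + 1) → A) : Fin n → A := fun k =>
  if k < i then a k.castSucc
  else if k = i then 𝒜.mul (a k.castSucc) (a k.succ) else a k.succ

/-- The Hochschild chain complex of `𝒜` with coefficients in `M`:
`T n = C_n(A, X) = X ⊗^ A^{⊗^ n}` and
`d n (x ⊗ a_0 ⊗ ⋯ ⊗ a_n) = x a_0 ⊗ a_1 ⊗ ⋯ ⊗ a_n
  + ∑_{i < n} (-1)^{i+1} x ⊗ a_0 ⊗ ⋯ ⊗ a_i a_{i+1} ⊗ ⋯ ⊗ a_n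
  + (-1)^{n+1} a_n x ⊗ a_0 ⊗ ⋯ ⊗ a_{n-1}`.
By the universal property it is unique up to a canonical isomorphism. -/
structure HComplex {A : Type} [AddCommGroup A] [Module ℂ A] [UniformSpace A] [PolySpace A]
    (𝒜 : PolyAlgebra A) {X : Type} [AddCommGroup X] [Module ℂ X] [UniformSpace X]
    [PolySpace X] (M : Bimodule 𝒜 X) where
  T : ℕ → Type
  acg : ∀ n, AddCommGroup (T n)
  mod : ∀ n, Module ℂ (T n)
  usp : ∀ n, UniformSpace (T n)
  poly : ∀ n, PolySpace (T n)
  j : ∀ n, X →ₗ[ℂ] MultilinearMap ℂ (fun _ : Fin n => A) (T n)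
  tensor : ∀ n, IsTensor X A (T n) n (j n)
  d : ∀ n, T (n + 1) →L[ℂ] T n
  d_apply : ∀ n x (a : Fin (n + 1) → A),
    d n (j (n + 1) x a) = j n (M.r x (a 0)) (Fin.tail a)
      + ∑ i : Fin n, (-1 : ℂ) ^ (i.val + 1) • j n x (contract 𝒜 i a)
      + (-1 : ℂ) ^ (n + 1) • j n (M.l (a (Fin.last n)) x) (Fin.init a)

attribute [instance] HComplex.acg HComplex.mod HComplex.usp HComplex.poly

/-- `ℋ_{k+1}(A, X) = 0`, i.e. `Ker d_k = Im d_{k+1}`. -/
def HComplex.VanishSucc {A : Type} [AddCommGroup A] [Module ℂ A] [UniformSpace A]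
    [PolySpace A] {𝒜 : PolyAlgebra A} {X : Type} [AddCommGroup X] [Module ℂ X]
    [UniformSpace X] [PolySpace X] {M : Bimodule 𝒜 X} (C : HComplex 𝒜 M) (k : ℕ) : Prop :=
  ∀ z : C.T (k + 1), C.d k z = 0 ↔ ∃ y : C.T (k + 2), C.d (k + 1) y = z

/-- `𝒜` is amenable: `ℋ_1(A, X) = 0` and `ℋ_0(A, X)` is Hausdorff (that is, `Im d_0` is
closed) for every bimodule `X`. -/
def Amenable {A : Type} [AddCommGroup A] [Module ℂ A] [UniformSpace A] [PolySpace A]
    (𝒜 : PolyAlgebra A) : Prop :=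
  ∀ (X : Type) [AddCommGroup X] [Module ℂ X] [UniformSpace X] [PolySpace X]
    (M : Bimodule 𝒜 X) (C : HComplex 𝒜 M), C.VanishSucc 0 ∧ IsClosed (Set.range (C.d 0))

end Pool.Agent.HochPhi
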