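import Mathlib
import Pool.Agent.HochPhi.Defs

/-! Seminorm tools for complete locally convex spaces. -/

open Filter Topology

namespace Pool.Agent.HochPhi

set_option linter.unusedSectionVars false

section basics

variable {E : Type*} [AddCommGroup E] [Module ℂ E] [TopologicalSpace E] [PolynormableSpace ℂ E]

theorem sn_sup_le {ι : Type*} (p : SeminormFamily ℂ E ι) (s : Finset ι) :
    s.sup p ≤ ∑ i ∈ s, p i := by
  exact Seminorm.finset_sup_le_sum p s

theorem exists_sn {U : Set E} (hU : U ∈ 𝓝 (0 : E)) :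
    ∃ q : Seminorm ℂ E, Continuous q ∧ {x | q x < 1} ⊆ U := by
  have h := PolynormableSpace.withSeminorms ℂ E
  have : IsTopologicalAddGroup E := h.topologicalAddGroup
  have : ContinuousSMul ℂ E := h.continuousSMul
  obtain ⟨⟨s, r⟩, hr, hs⟩ := h.hasBasis_zero_ball.mem_iff.mp hU
  simp only at hr hs
  set p : Seminorm ℂ E := ∑ i ∈ s, i.1 with hp
  have hpc : Continuous p := by
    have : (fun x => p x) = fun x => ∑ i ∈ s, i.1 x := by
      funext x
      rw [hp]
      induction s using Finset.cons_induction with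
      | empty => simp
      | cons a s ha ih =>
        simp [Finset.sum_cons]
    change Continuous (fun x => p x)
    rw [this]
    exact continuous_finsetSum _ (fun i _ => i.2)
  refine ⟨(Real.toNNReal r⁻¹) • p, ?_, ?_⟩
  · have : Continuous (fun x => (Real.toNNReal r⁻¹ : ℝ) * p x) := continuous_const.mul hpc
    exact this
  · intro x hx
    apply hs
    rw [Seminorm.mem_ball_zero]
    have h1 : (s.sup fun p : {p : Seminorm ℂ E // Continuous p} => p.1) x ≤ p x :=
      sn_sup_le (fun p : {p : Seminorm ℂ E // Continuous p} => p.1) s x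
    have h2 : (Real.toNNReal r⁻¹ : ℝ) * p x < 1 := hx
    rw [Real.coe_toNNReal _ (by positivity)] at h2
    have h3 : p x < r := by
      rw [inv_mul_eq_div, div_lt_one hr] at h2
      exact h2
    exact lt_of_le_of_lt h1 h3

theorem tendsto_of_sn {α : Type*} {l : Filter α} {g : α → E} {z : E}
    (h : ∀ r : Seminorm ℂ E, Continuous r → Tendsto (fun a => r (g a - z)) l (𝓝 0)) :
    Tendsto g l (𝓝 z) := by
  have hw := PolynormableSpace.withSeminorms ℂ E
  have : IsTopologicalAddGroup E := hw.topologicalAddGroup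
  rw [← tendsto_sub_nhds_zero_iff]
  intro U hU
  obtain ⟨q, hq, hqU⟩ := exists_sn hU
  have h2 := (h q hq).eventually (gt_mem_nhds one_pos)
  change ∀ᶠ a in l, g a - z ∈ U
  filter_upwards [h2] with a ha
  exact hqU ha

theorem sn_tendsto {α : Type*} {l : Filter α} {g : α → E} {z : E}
    (h : Tendsto g l (𝓝 z)) (r : Seminorm ℂ E) (hr : Continuous r) :
    Tendsto (fun a => r (g a - z)) l (𝓝 0) := by
  have hw := PolynormableSpace.withSeminorms ℂ E
  have : IsTopologicalAddGroup E := hw.topologicalAddGroup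
  have h1 : Tendsto (fun a => g a - z) l (𝓝 0) := tendsto_sub_nhds_zero_iff.mpr h
  have := (hr.tendsto 0).comp h1
  simpa [Function.comp_def] using this

theorem eq_zero_of_sn [T2Space E] {x : E} (h : ∀ r : Seminorm ℂ E, Continuous r → r x = 0) :
    x = 0 := by
  have h1 : Tendsto (fun _ : ℕ => x) atTop (𝓝 0) := by
    apply tendsto_of_sn
    intro r hr
    simp only [sub_zero, h r hr]
    exact tendsto_const_nhds
  exact tendsto_nhds_unique tendsto_const_nhds h1

end basics

section linear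

variable {E F Z : Type*} [AddCommGroup E] [Module ℂ E] [TopologicalSpace E]
  [AddCommGroup F] [Module ℂ F] [TopologicalSpace F]
  [AddCommGroup Z] [Module ℂ Z] [TopologicalSpace Z] [PolynormableSpace ℂ Z]

theorem continuous_of_sn [PolynormableSpace ℂ E] (f : E →ₗ[ℂ] Z)
    (h : ∀ r : Seminorm ℂ Z, Continuous r → ∃ q : Seminorm ℂ E, Continuous q ∧
      ∀ x, r (f x) ≤ q x) : Continuous f := by
  rw [continuous_iff_continuousAt]
  intro x₀
  apply tendsto_of_sn
  intro r hr
  obtain ⟨q, hq, hle⟩ := h r hr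
  have h1 : Tendsto (fun x => q (x - x₀)) (𝓝 x₀) (𝓝 0) := sn_tendsto tendsto_id q hq
  refine squeeze_zero (fun x => apply_nonneg r _) (fun x => ?_) h1
  rw [← map_sub]
  exact hle _

theorem bilin_continuous [PolynormableSpace ℂ E] [PolynormableSpace ℂ F]
    (B : E →ₗ[ℂ] F →ₗ[ℂ] Z)
    (h : ∀ r : Seminorm ℂ Z, Continuous r → ∃ q : Seminorm ℂ E, Continuous q ∧
      ∃ s : Seminorm ℂ F, Continuous s ∧ ∀ x y, r (B x y) ≤ q x * s y) :
    Continuous fun p : E × F => B p.1 p.2 := by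
  rw [continuous_iff_continuousAt]
  rintro ⟨x₀, y₀⟩
  apply tendsto_of_sn
  intro r hr
  obtain ⟨q, hq, s, hs, hle⟩ := h r hr
  have hx : Tendsto (fun p : E × F => q (p.1 - x₀)) (𝓝 (x₀, y₀)) (𝓝 0) :=
    sn_tendsto (continuous_fst.tendsto (x₀, y₀)) q hq
  have hy : Tendsto (fun p : E × F => s (p.2 - y₀)) (𝓝 (x₀, y₀)) (𝓝 0) :=
    sn_tendsto (continuous_snd.tendsto (x₀, y₀)) s hs
  have hsy : Tendsto (fun p : E × F => s p.2) (𝓝 (x₀, y₀)) (𝓝 (s y₀)) :=
    ((hs.comp continuous_snd).tendsto (x₀, y₀))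
  have h1 : Tendsto (fun p : E × F => q (p.1 - x₀) * s p.2 + q x₀ * s (p.2 - y₀))
      (𝓝 (x₀, y₀)) (𝓝 0) := by
    have := (hx.mul hsy).add (hy.const_mul (q x₀))
    simpa using this
  refine squeeze_zero (fun p => apply_nonneg r _) (fun p => ?_) h1
  have e : B p.1 p.2 - B x₀ y₀ = B (p.1 - x₀) p.2 + B x₀ (p.2 - y₀) := by
    simp [map_sub]
  change r (B p.1 p.2 - B x₀ y₀) ≤ _
  rw [e]
  exact (map_add_le_add r _ _).trans (add_le_add (hle _ _) (hle _ _))

theorem bilin_bound [PolynormableSpace ℂ E] [PolynormableSpace ℂ F]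
    (B : E →ₗ[ℂ] F →ₗ[ℂ] Z) (hB : Continuous fun p : E × F => B p.1 p.2)
    (r : Seminorm ℂ Z) (hr : Continuous r) :
    ∃ q : Seminorm ℂ E, Continuous q ∧ ∃ s : Seminorm ℂ F, Continuous s ∧
      ∀ x y, r (B x y) ≤ q x * s y := by
  have h0 : Tendsto (fun p : E × F => r (B p.1 p.2)) (𝓝 (0, 0)) (𝓝 0) := by
    have := (hr.comp hB).tendsto (0, 0)
    simpa [Function.comp_def] using this
  have h1 : ∀ᶠ p : E × F in 𝓝 (0, 0), r (B p.1 p.2) < 1 := h0.eventually (gt_mem_nhds one_pos)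
  rw [nhds_prod_eq] at h1
  obtain ⟨U, hU, V, hV, hUV⟩ := Filter.eventually_prod_iff.mp h1
  obtain ⟨q, hq, hqU⟩ := exists_sn (show {x | U x} ∈ 𝓝 (0 : E) from hU)
  obtain ⟨s, hs, hsV⟩ := exists_sn (show {x | V x} ∈ 𝓝 (0 : F) from hV)
  refine ⟨q, hq, s, hs, fun x y => ?_⟩
  have key : ∀ ε : ℝ, 0 < ε → r (B x y) ≤ (q x + ε) * (s y + ε) := by
    intro ε hε
    have ha : 0 < q x + ε := by have := apply_nonneg q x; linarith
    have hb : 0 < s y + ε := by have := apply_nonneg s y; linarith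
    have h2 : q (((q x + ε : ℝ) : ℂ)⁻¹ • x) < 1 := by
      rw [map_smul_eq_mul, norm_inv, Complex.norm_real, Real.norm_of_nonneg ha.le,
        inv_mul_lt_one₀ ha]
      linarith
    have h3 : s (((s y + ε : ℝ) : ℂ)⁻¹ • y) < 1 := by
      rw [map_smul_eq_mul, norm_inv, Complex.norm_real, Real.norm_of_nonneg hb.le,
        inv_mul_lt_one₀ hb]
      linarith
    have h4 := hUV (hqU h2) (hsV h3)
    simp only [map_smul, LinearMap.smul_apply, map_smul_eq_mul, norm_inv, Complex.norm_real,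
      Real.norm_of_nonneg ha.le, Real.norm_of_nonneg hb.le] at h4
    have h5 : r (B x y) < (q x + ε) * (s y + ε) := by
      rw [inv_mul_lt_iff₀ hb, inv_mul_lt_iff₀ ha] at h4
      simpa using h4
    exact h5.le
  have hlim : Tendsto (fun ε : ℝ => (q x + ε) * (s y + ε)) (𝓝[>] 0) (𝓝 (q x * s y)) := by
    have : Continuous (fun ε : ℝ => (q x + ε) * (s y + ε)) := by fun_prop
    have := this.tendsto 0
    simp only [add_zero] at this
    exact this.mono_left nhdsWithin_le_nhds
  refine ge_of_tendsto hlim ?_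
  filter_upwards [self_mem_nhdsWithin] with ε hε
  exact key ε hε

end linear

section multi

variable {E A Z : Type*} [AddCommGroup E] [Module ℂ E] [TopologicalSpace E]
  [AddCommGroup A] [Module ℂ A] [TopologicalSpace A]
  [AddCommGroup Z] [Module ℂ Z] [TopologicalSpace Z] [PolynormableSpace ℂ Z]
  [PolynormableSpace ℂ E] [PolynormableSpace ℂ A] {n : ℕ}

theorem multi_bound (f : E →ₗ[ℂ] MultilinearMap ℂ (fun _ : Fin n => A) Z)
    (hf : Continuous fun p : E × (Fin n → A) => f p.1 p.2)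
    (r : Seminorm ℂ Z) (hr : Continuous r) :
    ∃ q : Seminorm ℂ E, Continuous q ∧ ∃ s : Seminorm ℂ A, Continuous s ∧
      ∀ x a, r (f x a) ≤ q x * ∏ i, s (a i) := by
  have h0 : Tendsto (fun p : E × (Fin n → A) => r (f p.1 p.2)) (𝓝 (0, 0)) (𝓝 0) := by
    have := (hr.comp hf).tendsto (0, 0)
    simpa [Function.comp_def] using this
  have h1 : ∀ᶠ p : E × (Fin n → A) in 𝓝 (0, 0), r (f p.1 p.2) < 1 :=
    h0.eventually (gt_mem_nhds one_pos)
  rw [nhds_prod_eq] at h1
  obtain ⟨U, hU, V, hV, hUV⟩ := Filter.eventually_prod_iff.mp h1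
  obtain ⟨q, hq, hqU⟩ := exists_sn (show {x | U x} ∈ 𝓝 (0 : E) from hU)
  have hV' : ∃ s : Seminorm ℂ A, Continuous s ∧ ∀ a : Fin n → A, (∀ i, s (a i) < 1) → V a := by
    have hV2 : {a | V a} ∈ 𝓝 (0 : Fin n → A) := hV
    rw [nhds_pi, Filter.mem_pi] at hV2
    obtain ⟨I, hI, t, ht, hsub⟩ := hV2
    have hmem : (⋂ i : Fin n, t i) ∈ 𝓝 (0 : A) := by
      rw [Filter.iInter_mem]
      intro i; exact ht i
    obtain ⟨s, hs, hsU⟩ := exists_sn hmem
    refine ⟨s, hs, fun a ha => ?_⟩
    apply hsub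
    intro i _
    exact Set.mem_iInter.mp (hsU (ha i)) i
  obtain ⟨s, hs, hsV⟩ := hV'
  refine ⟨q, hq, s, hs, fun x a => ?_⟩
  have key : ∀ ε : ℝ, 0 < ε → r (f x a) ≤ (q x + ε) * ∏ i, (s (a i) + ε) := by
    intro ε hε
    have ha : 0 < q x + ε := by have := apply_nonneg q x; linarith
    have hb : ∀ i, 0 < s (a i) + ε := fun i => by have := apply_nonneg s (a i); linarith
    have h2 : q (((q x + ε : ℝ) : ℂ)⁻¹ • x) < 1 := by
      rw [map_smul_eq_mul, norm_inv, Complex.norm_real, Real.norm_of_nonneg ha.le,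
        inv_mul_lt_one₀ ha]
      linarith
    have h3 : ∀ i, s (((s (a i) + ε : ℝ) : ℂ)⁻¹ • a i) < 1 := by
      intro i
      rw [map_smul_eq_mul, norm_inv, Complex.norm_real, Real.norm_of_nonneg (hb i).le,
        inv_mul_lt_one₀ (hb i)]
      linarith
    have h4 := hUV (hqU h2) (hsV (fun i => ((s (a i) + ε : ℝ) : ℂ)⁻¹ • a i) h3)
    simp only at h4
    rw [map_smul, smul_apply, MultilinearMap.map_smul_univ, map_smul_eq_mul,
      map_smul_eq_mul, norm_inv, Complex.norm_real, Real.norm_of_nonneg ha.le, norm_prod] at h4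
    have h5 : ∏ i, ‖((s (a i) + ε : ℝ) : ℂ)⁻¹‖ = (∏ i, (s (a i) + ε))⁻¹ := by
      rw [← Finset.prod_inv_distrib]
      apply Finset.prod_congr rfl
      intro i _
      rw [norm_inv, Complex.norm_real, Real.norm_of_nonneg (hb i).le]
    rw [h5, inv_mul_lt_iff₀ ha, inv_mul_lt_iff₀ (Finset.prod_pos fun i _ => hb i)] at h4
    calc r (f x a) ≤ (∏ i, (s (a i) + ε)) * ((q x + ε) * 1) := h4.le
      _ = _ := by ring
  have hlim : Tendsto (fun ε : ℝ => (q x + ε) * ∏ i, (s (a i) + ε)) (𝓝[>] 0)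
      (𝓝 (q x * ∏ i, s (a i))) := by
    have : Continuous (fun ε : ℝ => (q x + ε) * ∏ i, (s (a i) + ε)) := by fun_prop
    have := this.tendsto 0
    simp only [add_zero] at this
    exact this.mono_left nhdsWithin_le_nhds
  refine ge_of_tendsto hlim ?_
  filter_upwards [self_mem_nhdsWithin] with ε hε
  exact key ε hε

theorem multi_continuous (f : E →ₗ[ℂ] MultilinearMap ℂ (fun _ : Fin n => A) Z)
    (h : ∀ r : Seminorm ℂ Z, Continuous r → ∃ q : Seminorm ℂ E, Continuous q ∧
      ∃ s : Seminorm ℂ A, Continuous s ∧ ∀ x a, r (f x a) ≤ q x * ∏ i, s (a i)) :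
    Continuous fun p : E × (Fin n → A) => f p.1 p.2 := by
  classical
  rw [continuous_iff_continuousAt]
  rintro ⟨x₀, a₀⟩
  apply tendsto_of_sn
  intro r hr
  obtain ⟨q, hq, s, hs, hle⟩ := h r hr
  have hwA := PolynormableSpace.withSeminorms ℂ A
  have : IsTopologicalAddGroup A := hwA.topologicalAddGroup
  have hx : Tendsto (fun p : E × (Fin n → A) => q (p.1 - x₀)) (𝓝 (x₀, a₀)) (𝓝 0) :=
    sn_tendsto (continuous_fst.tendsto (x₀, a₀)) q hq
  have hqx : Tendsto (fun p : E × (Fin n → A) => q p.1) (𝓝 (x₀, a₀)) (𝓝 (q x₀)) :=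
    ((hq.comp continuous_fst).tendsto (x₀, a₀))
  have hai : ∀ i, Tendsto (fun p : E × (Fin n → A) => s (p.2 i - a₀ i)) (𝓝 (x₀, a₀)) (𝓝 0) := by
    intro i
    exact sn_tendsto (((continuous_apply i).comp continuous_snd).tendsto (x₀, a₀)) s hs
  let bd : E × (Fin n → A) → ℝ := fun p => q (p.1 - x₀) * ∏ i, s (a₀ i) +
    ∑ S ∈ (Finset.univ : Finset (Finset (Fin n))).erase ∅,
      q p.1 * ∏ i, s (S.piecewise (p.2 - a₀) a₀ i)
  have hbd : Tendsto bd (𝓝 (x₀, a₀)) (𝓝 0) := by
    have h1 : Tendsto (fun p : E × (Fin n → A) => q (p.1 - x₀) * ∏ i, s (a₀ i))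
        (𝓝 (x₀, a₀)) (𝓝 0) := by
      have := hx.mul_const (∏ i, s (a₀ i))
      simpa using this
    have h2 : ∀ S ∈ (Finset.univ : Finset (Finset (Fin n))).erase ∅,
        Tendsto (fun p : E × (Fin n → A) => q p.1 * ∏ i, s (S.piecewise (p.2 - a₀) a₀ i))
          (𝓝 (x₀, a₀)) (𝓝 0) := by
      intro S hS
      have hSne : S.Nonempty := Finset.nonempty_iff_ne_empty.mpr (Finset.ne_of_mem_erase hS)
      obtain ⟨i₀, hi₀⟩ := hSne
      have h3 : Tendsto (fun p : E × (Fin n → A) => ∏ i, s (S.piecewise (p.2 - a₀) a₀ i))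
          (𝓝 (x₀, a₀)) (𝓝 (∏ i, if i ∈ S then 0 else s (a₀ i))) := by
        apply tendsto_finsetProd
        intro i _
        by_cases hi : i ∈ S
        · simp only [hi, if_true, Finset.piecewise, Pi.sub_apply]
          exact hai i
        · simp only [hi, if_false, Finset.piecewise]
          exact tendsto_const_nhds
      have h4 : (∏ i, if i ∈ S then 0 else s (a₀ i)) = 0 :=
        Finset.prod_eq_zero (Finset.mem_univ i₀) (by simp [hi₀])
      rw [h4] at h3
      have := hqx.mul h3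
      simpa using this
    have h5 := h1.add (tendsto_finsetSum _ h2)
    rw [Finset.sum_const_zero, add_zero] at h5
    exact h5
  refine squeeze_zero (fun p => apply_nonneg r _) (fun p => ?_) hbd
  have e : f p.1 p.2 = ∑ S : Finset (Fin n), f p.1 (S.piecewise (p.2 - a₀) a₀) := by
    have := (f p.1).map_add_univ (p.2 - a₀) a₀
    rw [sub_add_cancel] at this
    exact this
  have e2 : f p.1 p.2 - f x₀ a₀ = f (p.1 - x₀) a₀ +
      ∑ S ∈ (Finset.univ : Finset (Finset (Fin n))).erase ∅,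
        f p.1 (S.piecewise (p.2 - a₀) a₀) := by
    rw [e, ← Finset.add_sum_erase _ _ (Finset.mem_univ (∅ : Finset (Fin n)))]
    simp only [Finset.piecewise_empty, map_sub, sub_apply]
    abel
  change r (f p.1 p.2 - f x₀ a₀) ≤ _
  rw [e2]
  refine (map_add_le_add r _ _).trans (add_le_add (hle _ _) ?_)
  have hsum : ∀ (t : Finset (Finset (Fin n))),
      r (∑ S ∈ t, f p.1 (S.piecewise (p.2 - a₀) a₀)) ≤
        ∑ S ∈ t, q p.1 * ∏ i, s (S.piecewise (p.2 - a₀) a₀ i) := by
    intro t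
    induction t using Finset.induction_on with
    | empty => simp
    | insert S t hS ih =>
      rw [Finset.sum_insert hS, Finset.sum_insert hS]
      exact (map_add_le_add r _ _).trans (add_le_add (hle _ _) ih)
  exact hsum _

end multi

end Pool.Agent.HochPhi
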