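import Mathlib
import Pool.Agent.HochPhi.Semi

/-! The space `K ι X` of families that are finitely supported modulo every continuous seminorm. -/

open Filter Topology
open scoped NNReal

set_option linter.unusedSectionVars false

namespace Pool.Agent.HochPhi

section defs

variable (ι : Type) (X : Type) [AddCommGroup X] [Module ℂ X] [UniformSpace X] [PolySpace X]

def Kset : Submodule ℂ (ι → X) where
  carrier := {x | ∀ q : Seminorm ℂ X, Continuous q → {i | q (x i) ≠ 0}.Finite}
  add_mem' := by
    intro a b ha hb q hq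
    refine ((ha q hq).union (hb q hq)).subset ?_
    intro i hi
    by_contra hcon
    simp only [Set.mem_union, Set.mem_ofPred_eq, not_or, not_not] at hcon
    apply hi
    have h1 : q (a i + b i) ≤ q (a i) + q (b i) := map_add_le_add q _ _
    have h2 := apply_nonneg q (a i + b i)
    change q (a i + b i) = 0
    linarith [hcon.1, hcon.2]
  zero_mem' := by
    intro q hq
    simp
  smul_mem' := by
    intro c x hx q hq
    refine (hx q hq).subset ?_
    intro i hi
    by_contra hcon
    simp only [Set.mem_ofPred_eq, not_not] at hcon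
    apply hi
    change q (c • x i) = 0
    rw [map_smul_eq_mul, hcon, mul_zero]

def K : Type := ↥(Kset ι X)

instance : AddCommGroup (K ι X) := inferInstanceAs (AddCommGroup ↥(Kset ι X))
instance : Module ℂ (K ι X) := inferInstanceAs (Module ℂ ↥(Kset ι X))

end defs

variable {ι : Type} {X : Type} [AddCommGroup X] [Module ℂ X] [UniformSpace X] [PolySpace X]

namespace K

/-- coordinates -/
def co (z : K ι X) : ι → X := z.1

theorem fin (z : K ι X) (q : Seminorm ℂ X) (hq : Continuous q) : {i | q (z.co i) ≠ 0}.Finite :=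
  z.2 q hq

def mk (x : ι → X) (hx : ∀ q : Seminorm ℂ X, Continuous q → {i | q (x i) ≠ 0}.Finite) : K ι X :=
  ⟨x, hx⟩

@[simp] theorem mk_co (x : ι → X) (hx) (i : ι) : (mk x hx).co i = x i := rfl

theorem ext {z w : K ι X} (h : ∀ i, z.co i = w.co i) : z = w := Subtype.ext (funext h)

@[simp] theorem add_co (z w : K ι X) (i : ι) : (z + w).co i = z.co i + w.co i := rfl
@[simp] theorem sub_co (z w : K ι X) (i : ι) : (z - w).co i = z.co i - w.co i := rfl
@[simp] theorem neg_co (z : K ι X) (i : ι) : (-z).co i = -z.co i := rfl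
@[simp] theorem zero_co (i : ι) : (0 : K ι X).co i = 0 := rfl
@[simp] theorem smul_co (c : ℂ) (z : K ι X) (i : ι) : (c • z).co i = c • z.co i := rfl

theorem summ (w : ι → ℝ≥0) (q : Seminorm ℂ X) (hq : Continuous q) (z : K ι X) :
    Summable fun i => (w i : ℝ) * q (z.co i) := by
  apply summable_of_hasFiniteSupport
  refine (z.fin q hq).subset ?_
  intro i hi
  simp only [Function.mem_support] at hi
  exact right_ne_zero_of_mul hi

/-- The basic seminorms. -/
noncomputable def P (w : ι → ℝ≥0) (q : {q : Seminorm ℂ X // Continuous q}) :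
    Seminorm ℂ (K ι X) :=
  Seminorm.of (fun z => ∑' i, (w i : ℝ) * q.1 (z.co i))
    (by
      intro z z'
      rw [← (summ w q.1 q.2 z).tsum_add (summ w q.1 q.2 z')]
      refine (summ w q.1 q.2 (z + z')).tsum_le_tsum (fun i => ?_)
        ((summ w q.1 q.2 z).add (summ w q.1 q.2 z'))
      rw [← mul_add]
      exact mul_le_mul_of_nonneg_left (map_add_le_add q.1 _ _) (w i).2)
    (by
      intro c z
      rw [← tsum_mul_left]
      apply tsum_congr
      intro i
      rw [smul_co, map_smul_eq_mul]
      ring)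

theorem P_apply (w : ι → ℝ≥0) (q : {q : Seminorm ℂ X // Continuous q}) (z : K ι X) :
    P w q z = ∑' i, (w i : ℝ) * q.1 (z.co i) := rfl

theorem term_le (w : ι → ℝ≥0) (q : {q : Seminorm ℂ X // Continuous q}) (z : K ι X) (i : ι) :
    (w i : ℝ) * q.1 (z.co i) ≤ P w q z := by
  rw [P_apply]
  exact (summ w q.1 q.2 z).le_tsum i
    (fun j _ => mul_nonneg (w j).2 (apply_nonneg q.1 _))

theorem sum_le_P (w : ι → ℝ≥0) (q : {q : Seminorm ℂ X // Continuous q}) (z : K ι X)
    (s : Finset ι) : ∑ i ∈ s, (w i : ℝ) * q.1 (z.co i) ≤ P w q z := by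
  rw [P_apply]
  exact (summ w q.1 q.2 z).sum_le_tsum s
    (fun j _ => mul_nonneg (w j).2 (apply_nonneg q.1 _))

theorem P_le_of (w : ι → ℝ≥0) (q : {q : Seminorm ℂ X // Continuous q}) (z : K ι X) {c : ℝ}
    (h : ∀ s : Finset ι, ∑ i ∈ s, (w i : ℝ) * q.1 (z.co i) ≤ c) : P w q z ≤ c := by
  rw [P_apply]
  exact (summ w q.1 q.2 z).tsum_le_of_sum_le h

noncomputable def fam (ι : Type) (X : Type) [AddCommGroup X] [Module ℂ X] [UniformSpace X]
    [PolySpace X] : SeminormFamily ℂ (K ι X)
      ((ι → ℝ≥0) × {q : Seminorm ℂ X // Continuous q}) := fun p => P p.1 p.2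

instance : Nonempty ((ι → ℝ≥0) × {q : Seminorm ℂ X // Continuous q}) :=
  ⟨(fun _ => 0, ⟨0, continuous_const⟩)⟩

@[instance_reducible]
noncomputable def top (ι : Type) (X : Type) [AddCommGroup X] [Module ℂ X] [UniformSpace X]
    [PolySpace X] : TopologicalSpace (K ι X) := (fam ι X).moduleFilterBasis.topology

theorem top_grp : @IsTopologicalAddGroup (K ι X) (top ι X) _ :=
  @WithSeminorms.topologicalAddGroup _ _ _ _ _ _ (top ι X) (fam ι X)
    (@WithSeminorms.mk _ _ _ _ _ _ (fam ι X) (top ι X) rfl)

noncomputable instance : UniformSpace (K ι X) :=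
  @IsTopologicalAddGroup.rightUniformSpace (K ι X) _ (top ι X) top_grp

theorem ws : WithSeminorms (fam ι X) := ⟨rfl⟩

instance : IsTopologicalAddGroup (K ι X) := ws.topologicalAddGroup
instance : IsUniformAddGroup (K ι X) := isUniformAddGroup_of_addCommGroup
instance : ContinuousSMul ℂ (K ι X) := ws.continuousSMul
instance : PolynormableSpace ℂ (K ι X) := ws.toPolynormableSpace

theorem P_cont (w : ι → ℝ≥0) (q : {q : Seminorm ℂ X // Continuous q}) :
    Continuous (P w q : Seminorm ℂ (K ι X)) := ws.continuous_seminorm (w, q)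

theorem sn_le_P (r : Seminorm ℂ (K ι X)) (hr : Continuous r) :
    ∃ (w : ι → ℝ≥0) (q : {q : Seminorm ℂ X // Continuous q}), r ≤ P w q := by
  obtain ⟨s, C, -, hC⟩ := Seminorm.bound_of_continuous (ws (ι := ι) (X := X)) r hr
  have h1 : ∀ s : Finset ((ι → ℝ≥0) × {q : Seminorm ℂ X // Continuous q}),
      ∃ (w : ι → ℝ≥0) (q : {q : Seminorm ℂ X // Continuous q}), s.sup (fam ι X) ≤ P w q := by
    intro s
    classical
    induction s using Finset.induction_on with
    | empty =>
      refine ⟨fun _ => 0, ⟨0, continuous_const⟩, ?_⟩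
      simp
    | insert p s _ ih =>
      obtain ⟨w, q, hwq⟩ := ih
      refine ⟨w + p.1, ⟨q.1 + p.2.1, q.2.add p.2.2⟩, ?_⟩
      rw [Finset.sup_insert]
      apply sup_le
      · intro z
        change P p.1 p.2 z ≤ _
        apply P_le_of
        intro t
        refine le_trans ?_ (sum_le_P _ _ z t)
        apply Finset.sum_le_sum
        intro i _
        apply mul_le_mul
        · simp
        · change p.2.1 (z.co i) ≤ q.1 (z.co i) + p.2.1 (z.co i)
          have := apply_nonneg q.1 (z.co i)
          linarith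
        · exact apply_nonneg _ _
        · exact NNReal.coe_nonneg _
      · refine hwq.trans ?_
        intro z
        apply P_le_of
        intro t
        refine le_trans ?_ (sum_le_P _ _ z t)
        apply Finset.sum_le_sum
        intro i _
        apply mul_le_mul
        · simp
        · change q.1 (z.co i) ≤ q.1 (z.co i) + p.2.1 (z.co i)
          have := apply_nonneg p.2.1 (z.co i)
          linarith
        · exact apply_nonneg _ _
        · exact NNReal.coe_nonneg _
  obtain ⟨w, q, hwq⟩ := h1 s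
  refine ⟨fun i => C * w i, q, ?_⟩
  refine hC.trans ?_
  intro z
  change (C : ℝ) * (s.sup (fam ι X)) z ≤ _
  have h2 : (s.sup (fam ι X)) z ≤ P w q z := hwq z
  calc (C : ℝ) * (s.sup (fam ι X)) z ≤ C * P w q z := mul_le_mul_of_nonneg_left h2 C.2
    _ = P (fun i => C * w i) q z := by
      rw [P_apply, P_apply, ← tsum_mul_left]
      apply tsum_congr
      intro i
      push_cast
      ring

/-- evaluation as a continuous linear map -/
noncomputable def ev (i : ι) : K ι X →L[ℂ] X where
  toFun z := z.co i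
  map_add' _ _ := rfl
  map_smul' _ _ := rfl
  cont := by
    classical
    apply continuous_of_sn
      ({ toFun := fun z => z.co i, map_add' := fun _ _ => rfl, map_smul' := fun _ _ => rfl } :
        K ι X →ₗ[ℂ] X)
    intro r hr
    refine ⟨P (fun _ => 1) ⟨r, hr⟩, P_cont _ _, fun z => ?_⟩
    have := term_le (fun _ => 1) ⟨r, hr⟩ z i
    change r (z.co i) ≤ _
    simpa using this

@[simp] theorem ev_apply (i : ι) (z : K ι X) : ev i z = z.co i := rfl

instance : T2Space (K ι X) := by
  have : T1Space (K ι X) := by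
    apply (ws (ι := ι) (X := X)).T1_of_separating
    intro z hz
    by_contra hcon
    push Not at hcon
    apply hz
    apply ext
    intro i
    rw [zero_co]
    apply eq_zero_of_sn
    intro r hr
    have h1 := hcon (fun _ => 1, ⟨r, hr⟩)
    have h2 := term_le (fun _ => 1) ⟨r, hr⟩ z i
    have h3 : P (fun _ => 1) ⟨r, hr⟩ z = 0 := h1
    rw [h3] at h2
    have h4 := apply_nonneg r (z.co i)
    simp only [NNReal.coe_one, one_mul] at h2
    linarith
  infer_instance

theorem cauchy_small {f : Filter (K ι X)} (hf : Cauchy f) (r : Seminorm ℂ (K ι X))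
    (hr : Continuous r) {ε : ℝ} (hε : 0 < ε) :
    ∃ S ∈ f, ∀ y ∈ S, ∀ z ∈ S, r (y - z) < ε := by
  have hU : {z : K ι X | r z < ε} ∈ 𝓝 (0 : K ι X) := by
    apply (isOpen_lt hr continuous_const).mem_nhds
    simpa using hε
  have hV : {p : K ι X × K ι X | p.2 - p.1 ∈ {z : K ι X | r z < ε}} ∈ uniformity (K ι X) := by
    rw [uniformity_eq_comap_nhds_zero (K ι X)]
    exact ⟨_, hU, fun p hp => hp⟩
  obtain ⟨S, hS, hSV⟩ := (cauchy_iff.mp hf).2 _ hV
  refine ⟨S, hS, fun y hy z hz => ?_⟩
  exact hSV (Set.mk_mem_prod hz hy)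

instance : CompleteSpace (K ι X) := by
  constructor
  intro f hf
  have hne : f.NeBot := hf.1
  -- pointwise limit
  have hlim : ∀ i, ∃ x : X, Tendsto (fun z : K ι X => z.co i) f (𝓝 x) := by
    intro i
    have h1 : Cauchy (f.map (ev (X := X) i)) := hf.map (ev i).uniformContinuous
    exact CompleteSpace.complete h1
  choose x hx using hlim
  have hxK : ∀ q : Seminorm ℂ X, Continuous q → {i | q (x i) ≠ 0}.Finite := by
    intro q hq
    let w : ι → ℝ≥0 := fun i => ⟨(q (x i))⁻¹, inv_nonneg.mpr (apply_nonneg q _)⟩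
    obtain ⟨S, hS, hSm⟩ := cauchy_small hf (P w ⟨q, hq⟩) (P_cont _ _) (show (0:ℝ) < 1/2 by norm_num)
    obtain ⟨y, hy⟩ := hne.nonempty_of_mem hS
    refine (y.fin q hq).subset ?_
    intro i hi
    simp only [Set.mem_ofPred_eq] at hi ⊢
    intro hyi
    have h1 : ∀ᶠ z in f, (w i : ℝ) * q (y.co i - z.co i) ≤ 1/2 := by
      filter_upwards [hS] with z hz
      have h2 := term_le w ⟨q, hq⟩ (y - z) i
      have h3 := hSm y hy z hz
      simp only [sub_co] at h2
      linarith
    have h4 : Tendsto (fun z : K ι X => (w i : ℝ) * q (y.co i - z.co i)) f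
        (𝓝 ((w i : ℝ) * q (y.co i - x i))) :=
      ((hq.tendsto _).comp ((hx i).const_sub (y.co i))).const_mul _
    have h5 := le_of_tendsto h4 h1
    have h6 : q (x i) ≤ q (y.co i - x i) := by
      have : q (x i) ≤ q (y.co i) + q (y.co i - x i) := by
        have h7 := map_sub_le_add q (y.co i) (y.co i - x i)
        rwa [sub_sub_cancel] at h7
      rw [hyi, zero_add] at this
      exact this
    have h8 : (w i : ℝ) * q (x i) = 1 := inv_mul_cancel₀ hi
    have h9 : (w i : ℝ) * q (x i) ≤ (w i : ℝ) * q (y.co i - x i) :=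
      mul_le_mul_of_nonneg_left h6 (w i).2
    linarith
  refine ⟨mk x hxK, ?_⟩
  change Tendsto id f (𝓝 (mk x hxK))
  apply tendsto_of_sn
  intro r hr
  obtain ⟨w, q, hwq⟩ := sn_le_P r hr
  rw [Metric.tendsto_nhds]
  intro ε hε
  obtain ⟨S, hS, hSm⟩ := cauchy_small hf (P w q) (P_cont _ _) (half_pos hε)
  filter_upwards [hS] with y hy
  have h1 : P w q (y - mk x hxK) ≤ ε / 2 := by
    apply P_le_of
    intro s
    have h2 : ∀ᶠ z in f, ∑ i ∈ s, (w i : ℝ) * q.1 (y.co i - z.co i) ≤ ε / 2 := by
      filter_upwards [hS] with z hz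
      exact (sum_le_P w q (y - z) s).trans (hSm y hy z hz).le
    have h3 : Tendsto (fun z : K ι X => ∑ i ∈ s, (w i : ℝ) * q.1 (y.co i - z.co i)) f
        (𝓝 (∑ i ∈ s, (w i : ℝ) * q.1 (y.co i - x i))) := by
      apply tendsto_finsetSum
      intro i _
      exact ((q.2.tendsto _).comp ((hx i).const_sub (y.co i))).const_mul _
    exact le_of_tendsto h3 h2
  have h4 : r (y - mk x hxK) ≤ ε / 2 := (hwq _).trans h1
  rw [Real.dist_eq, sub_zero, abs_of_nonneg (apply_nonneg r _)]
  simp only [id]
  linarith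

instance : PolySpace (K ι X) where
  uag := inferInstance
  csm := inferInstance
  poly := inferInstance
  complete := inferInstance
  t2 := inferInstance

end K

end Pool.Agent.HochPhi
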