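import Mathlib
import Pool.Agent.HochPhi.K

/-! Universal property of `K ι X` for admissible families. -/

open Filter Topology
open scoped NNReal

set_option linter.unusedSectionVars false

namespace Pool.Agent.HochPhi

variable {ι κ : Type} {X Y Z : Type} [AddCommGroup X] [Module ℂ X] [UniformSpace X] [PolySpace X]
  [AddCommGroup Y] [Module ℂ Y] [UniformSpace Y] [PolySpace Y]
  [AddCommGroup Z] [Module ℂ Z] [UniformSpace Z] [PolySpace Z]

theorem sn_sum_le {σ : Type*} (r : Seminorm ℂ Z) (s : Finset σ) (f : σ → Z) :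
    r (∑ i ∈ s, f i) ≤ ∑ i ∈ s, r (f i) := by
  classical
  induction s using Finset.induction_on with
  | empty => simp
  | insert i s hi ih =>
    rw [Finset.sum_insert hi, Finset.sum_insert hi]
    exact (map_add_le_add r _ _).trans (by linarith)

/-- Admissible families of linear maps. -/
def Adm (u : ι → X →ₗ[ℂ] Z) : Prop :=
  ∀ r : Seminorm ℂ Z, Continuous r → ∃ (w : ι → ℝ≥0) (q : Seminorm ℂ X), Continuous q ∧
    ∀ i x, r (u i x) ≤ w i * q x

theorem Adm.add {u v : ι → X →ₗ[ℂ] Z} (hu : Adm u) (hv : Adm v) : Adm (fun i => u i + v i) := by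
  intro r hr
  obtain ⟨w, q, hq, h⟩ := hu r hr
  obtain ⟨w', q', hq', h'⟩ := hv r hr
  refine ⟨w + w', q + q', hq.add hq', fun i x => ?_⟩
  have h1 := map_add_le_add r (u i x) (v i x)
  have h2 := h i x
  have h3 := h' i x
  have h4 : ((w i : ℝ) * q' x) ≥ 0 := mul_nonneg (w i).2 (apply_nonneg _ _)
  have h5 : ((w' i : ℝ) * q x) ≥ 0 := mul_nonneg (w' i).2 (apply_nonneg _ _)
  change r (u i x + v i x) ≤ ((w i : ℝ) + w' i) * (q x + q' x)
  nlinarith

theorem Adm.smul {u : ι → X →ₗ[ℂ] Z} (hu : Adm u) (c : ι → ℂ) : Adm (fun i => c i • u i) := by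
  intro r hr
  obtain ⟨w, q, hq, h⟩ := hu r hr
  refine ⟨fun i => ‖c i‖₊ * w i, q, hq, fun i x => ?_⟩
  change r (c i • u i x) ≤ (((‖c i‖₊ * w i : ℝ≥0)) : ℝ) * q x
  rw [map_smul_eq_mul]
  push_cast
  rw [mul_assoc]
  exact mul_le_mul_of_nonneg_left (h i x) (norm_nonneg _)

theorem Adm.zero : Adm (fun _ : ι => (0 : X →ₗ[ℂ] Z)) := by
  intro r hr
  refine ⟨fun _ => 0, 0, continuous_const, fun i x => ?_⟩
  simp

theorem Adm.sum {σ : Type*} (s : Finset σ) {u : σ → ι → X →ₗ[ℂ] Z} (hu : ∀ k ∈ s, Adm (u k)) :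
    Adm (fun i => ∑ k ∈ s, u k i) := by
  classical
  induction s using Finset.induction_on with
  | empty => simpa using Adm.zero
  | insert k s hk ih =>
    simp only [Finset.sum_insert hk]
    exact (hu k (Finset.mem_insert_self _ _)).add
      (ih (fun k' hk' => hu k' (Finset.mem_insert_of_mem hk')))

theorem Adm.reindex {u : κ → X →ₗ[ℂ] Z} (hu : Adm u) (g : ι → κ) : Adm (fun i => u (g i)) := by
  intro r hr
  obtain ⟨w, q, hq, h⟩ := hu r hr
  exact ⟨fun i => w (g i), q, hq, fun i x => h (g i) x⟩

theorem Adm.comp {u : ι → X →ₗ[ℂ] Y} {v : ι → Y →ₗ[ℂ] Z} (hv : Adm v) (hu : Adm u) :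
    Adm (fun i => (v i).comp (u i)) := by
  intro r hr
  obtain ⟨w, q, hq, h⟩ := hv r hr
  obtain ⟨w', q', hq', h'⟩ := hu q hq
  refine ⟨fun i => w i * w' i, q', hq', fun i x => ?_⟩
  rw [LinearMap.comp_apply]
  push_cast
  calc r (v i (u i x)) ≤ w i * q (u i x) := h i _
    _ ≤ w i * (w' i * q' x) := mul_le_mul_of_nonneg_left (h' i x) (w i).2
    _ = _ := by ring

theorem Adm.const (f : X →L[ℂ] Z) : Adm (fun _ : ι => (f : X →ₗ[ℂ] Z)) := by
  intro r hr
  refine ⟨fun _ => 1, r.comp (f : X →ₗ[ℂ] Z), hr.comp f.continuous, fun i x => ?_⟩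
  simp

namespace K

open Classical in
/-- `single i x` is the family with `x` at `i` and `0` elsewhere. -/
noncomputable def single (i : ι) : X →ₗ[ℂ] K ι X where
  toFun x := mk (fun k => if k = i then x else 0) (by
    intro q hq
    refine (Set.finite_singleton i).subset ?_
    intro k hk
    by_contra hcon
    simp only [Set.mem_singleton_iff] at hcon
    simp [hcon] at hk)
  map_add' x y := by
    apply ext
    intro k
    simp only [mk_co, add_co]
    split_ifs <;> simp
  map_smul' c x := by
    apply ext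
    intro k
    simp only [mk_co, smul_co, RingHom.id_apply]
    split_ifs <;> simp

open Classical in
theorem single_co (i k : ι) (x : X) : (single i x : K ι X).co k = if k = i then x else 0 := rfl

@[simp] theorem single_same (i : ι) (x : X) : (single i x : K ι X).co i = x := by
  simp [single_co]

theorem single_ne {i k : ι} (h : k ≠ i) (x : X) : (single i x : K ι X).co k = 0 := by
  simp [single_co, h]

theorem P_single (w : ι → ℝ≥0) (q : {q : Seminorm ℂ X // Continuous q}) (i : ι) (x : X) :
    P w q (single i x) = w i * q.1 x := by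
  rw [P_apply, tsum_eq_single i]
  · rw [single_same]
  · intro k hk
    rw [single_ne hk, map_zero, mul_zero]

theorem adm_single : Adm (fun i : ι => (single i : X →ₗ[ℂ] K ι X)) := by
  intro r hr
  obtain ⟨w, q, h⟩ := sn_le_P r hr
  refine ⟨w, q.1, q.2, fun i x => ?_⟩
  rw [← P_single w q i x]
  exact h _

theorem P_eq_zero (w : ι → ℝ≥0) (q : {q : Seminorm ℂ X // Continuous q}) (z : K ι X)
    (h : ∀ i, q.1 (z.co i) = 0) : P w q z = 0 := by
  rw [P_apply]
  simp [h]

theorem sum_co {σ : Type*} (s : Finset σ) (f : σ → K ι X) (i : ι) :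
    (∑ k ∈ s, f k).co i = ∑ k ∈ s, (f k).co i := by
  classical
  induction s using Finset.induction_on with
  | empty => simp
  | insert k s hk ih => rw [Finset.sum_insert hk, Finset.sum_insert hk, add_co, ih]

theorem hasSum_single (z : K ι X) : HasSum (fun i => single i (z.co i)) z := by
  classical
  rw [HasSum]
  apply tendsto_of_sn
  intro r hr
  obtain ⟨w, q, h⟩ := sn_le_P r hr
  apply tendsto_const_nhds.congr'
  have hfin := z.fin q.1 q.2
  filter_upwards [Filter.eventually_ge_atTop hfin.toFinset] with s hs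
  apply le_antisymm (apply_nonneg r _)
  refine (h _).trans (le_of_eq ?_)
  apply P_eq_zero
  intro i
  rw [sub_co, sum_co]
  by_cases hi : i ∈ s
  · rw [Finset.sum_eq_single i]
    · simp
    · intro k _ hk
      exact single_ne (Ne.symm hk) _
    · intro h; exact absurd hi h
  · rw [Finset.sum_eq_zero]
    · have h1 : q.1 (z.co i) = 0 := by
        by_contra hne
        exact hi (hs (by simpa using hne))
      rw [zero_sub, map_neg_eq_map, h1]
    · intro k hk
      apply single_ne
      intro h; subst h; exact hi hk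

theorem clm_ext {F G : K ι X →L[ℂ] Z} (h : ∀ i x, F (single i x) = G (single i x)) : F = G := by
  ext z
  have h1 := (hasSum_single z).mapL F
  have h2 := (hasSum_single z).mapL G
  simp only [h] at h1
  exact h1.unique h2

theorem summable_of_adm {u : ι → X →ₗ[ℂ] Z} (hu : Adm u) (z : K ι X) :
    Summable fun i => u i (z.co i) := by
  classical
  rw [summable_iff_vanishing]
  intro e he
  obtain ⟨r, hr, hre⟩ := exists_sn he
  obtain ⟨w, q, hq, h⟩ := hu r hr
  refine ⟨(z.fin q hq).toFinset, fun t ht => hre ?_⟩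
  change r _ < 1
  have h1 : r (∑ b ∈ t, u b (z.co b)) ≤ ∑ b ∈ t, r (u b (z.co b)) := sn_sum_le r _ _
  have h2 : ∑ b ∈ t, r (u b (z.co b)) ≤ 0 := by
    apply Finset.sum_nonpos
    intro b hb
    have h3 : q (z.co b) = 0 := by
      by_contra hne
      exact Finset.disjoint_left.mp ht hb (by simpa using hne)
    have := h b (z.co b)
    rw [h3, mul_zero] at this
    exact this
  linarith

/-- The continuous linear map determined by an admissible family. -/
noncomputable def lift (u : ι → X →ₗ[ℂ] Z) (hu : Adm u) : K ι X →L[ℂ] Z where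
  toFun z := ∑' i, u i (z.co i)
  map_add' z w := by
    rw [← (summable_of_adm hu z).tsum_add (summable_of_adm hu w)]
    simp
  map_smul' c z := by
    simp only [smul_co, map_smul, RingHom.id_apply]
    exact (summable_of_adm hu z).tsum_const_smul c
  cont := by
    apply continuous_of_sn
      ({ toFun := fun z => ∑' i, u i (z.co i)
         map_add' := by
          intro z w
          rw [← (summable_of_adm hu z).tsum_add (summable_of_adm hu w)]
          simp
         map_smul' := by
          intro c z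
          simp only [smul_co, map_smul, RingHom.id_apply]
          exact (summable_of_adm hu z).tsum_const_smul c } :
        K ι X →ₗ[ℂ] Z)
    intro r hr
    obtain ⟨w, q, hq, h⟩ := hu r hr
    refine ⟨P w ⟨q, hq⟩, P_cont _ _, fun z => ?_⟩
    change r (∑' i, u i (z.co i)) ≤ _
    have h1 : Tendsto (fun s : Finset ι => r (∑ i ∈ s, u i (z.co i))) atTop
        (𝓝 (r (∑' i, u i (z.co i)))) :=
      (hr.tendsto _).comp (summable_of_adm hu z).hasSum
    refine le_of_tendsto' h1 (fun s => ?_)
    calc r (∑ i ∈ s, u i (z.co i)) ≤ ∑ i ∈ s, r (u i (z.co i)) := sn_sum_le r _ _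
      _ ≤ ∑ i ∈ s, w i * q (z.co i) := Finset.sum_le_sum (fun i _ => h i _)
      _ ≤ P w ⟨q, hq⟩ z := sum_le_P w ⟨q, hq⟩ z s

theorem lift_apply (u : ι → X →ₗ[ℂ] Z) (hu : Adm u) (z : K ι X) :
    lift u hu z = ∑' i, u i (z.co i) := rfl

theorem lift_hasSum (u : ι → X →ₗ[ℂ] Z) (hu : Adm u) (z : K ι X) :
    HasSum (fun i => u i (z.co i)) (lift u hu z) := (summable_of_adm hu z).hasSum

@[simp] theorem lift_single (u : ι → X →ₗ[ℂ] Z) (hu : Adm u) (i : ι) (x : X) :
    lift u hu (single i x) = u i x := by
  rw [lift_apply, tsum_eq_single i]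
  · rw [single_same]
  · intro k hk
    rw [single_ne hk, map_zero]

/-- `single i` as a continuous linear map. -/
noncomputable def singleL (i : ι) : X →L[ℂ] K ι X where
  toLinearMap := single i
  cont := by
    apply continuous_of_sn (single i : X →ₗ[ℂ] K ι X)
    intro r hr
    obtain ⟨w, q, hq, h⟩ := adm_single (ι := ι) (X := X) r hr
    refine ⟨w i • q, ?_, fun x => h i x⟩
    have : Continuous fun x => (w i : ℝ) * q x := continuous_const.mul hq
    exact this

@[simp] theorem singleL_apply (i : ι) (x : X) : singleL i x = (single i x : K ι X) := rfl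

end K

end Pool.Agent.HochPhi
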