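import Mathlib
import Pool.Agent.HochPhi.Lift

/-! The algebra `φ` of finitely supported sequences and the model `K_n X` of `X ⊗^ φ^{⊗^ n}`. -/

open Filter Topology
open scoped NNReal

set_option linter.unusedSectionVars false

namespace Pool.Agent.HochPhi

instance : PolySpace ℂ where
  uag := inferInstance
  csm := inferInstance
  poly := inferInstance
  complete := inferInstance
  t2 := inferInstance

/-- finite sequences with the finest locally convex topology -/
abbrev Phi : Type := K ℕ ℂ

noncomputable def nrm : {q : Seminorm ℂ ℂ // Continuous q} := ⟨normSeminorm ℂ ℂ, continuous_norm⟩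

theorem nrm_apply (c : ℂ) : nrm.1 c = ‖c‖ := rfl

theorem sn_complex (q : Seminorm ℂ ℂ) (c : ℂ) : q c = ‖c‖ * q 1 := by
  have := map_smul_eq_mul q c 1
  simpa using this

namespace Phi

theorem fin (a : Phi) : {i | a.co i ≠ 0}.Finite := by
  have := K.fin a nrm.1 nrm.2
  simpa [nrm_apply] using this

noncomputable def mk (x : ℕ → ℂ) (hx : {i | x i ≠ 0}.Finite) : Phi := K.mk x (by
  intro q hq
  refine hx.subset ?_
  intro i hi h0
  apply hi
  rw [h0, map_zero])

@[simp] theorem mk_co (x : ℕ → ℂ) (hx) (i : ℕ) : (mk x hx).co i = x i := rfl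

/-- basis vectors -/
noncomputable def e (k : ℕ) : Phi := K.single k 1

theorem e_co (k i : ℕ) : (e k).co i = if i = k then 1 else 0 := by
  rw [e, K.single_co]
  by_cases h : i = k <;> simp [h]

noncomputable def mulL : Phi →ₗ[ℂ] Phi →ₗ[ℂ] Phi :=
  LinearMap.mk₂ ℂ (fun a b => mk (fun i => a.co i * b.co i)
      ((fin a).subset (fun i hi => left_ne_zero_of_mul hi)))
    (by intro a a' b; apply K.ext; intro i; simp [add_mul])
    (by intro c a b; apply K.ext; intro i; simp [mul_assoc])
    (by intro a b b'; apply K.ext; intro i; simp [mul_add])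
    (by intro c a b; apply K.ext; intro i; simp; ring)

@[simp] theorem mulL_co (a b : Phi) (i : ℕ) : (mulL a b).co i = a.co i * b.co i := rfl

theorem P_phi (w : ℕ → ℝ≥0) (q : {q : Seminorm ℂ ℂ // Continuous q}) (a : Phi) :
    K.P w q a = ∑' i, (w i : ℝ) * (‖a.co i‖ * q.1 1) := by
  rw [K.P_apply]
  apply tsum_congr
  intro i
  rw [sn_complex]

theorem le_P_one (a : Phi) (i : ℕ) : ‖a.co i‖ ≤ K.P (fun _ => 1) nrm a := by
  have := K.term_le (fun _ => 1) nrm a i
  simpa [nrm_apply] using this

/-- The polynormed algebra `φ`. -/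
noncomputable def alg : PolyAlgebra Phi where
  mul := mulL
  assoc a b c := by apply K.ext; intro i; simp [mul_assoc]
  cont := by
    apply bilin_continuous
    intro r hr
    obtain ⟨w, q, h⟩ := K.sn_le_P r hr
    refine ⟨K.P w q, K.P_cont _ _, K.P (fun _ => 1) nrm, K.P_cont _ _, fun a b => ?_⟩
    refine (h _).trans ?_
    apply K.P_le_of
    intro s
    calc ∑ i ∈ s, (w i : ℝ) * q.1 ((mulL a b).co i)
        ≤ ∑ i ∈ s, (w i : ℝ) * q.1 (a.co i) * K.P (fun _ => 1) nrm b := by
          apply Finset.sum_le_sum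
          intro i _
          rw [mulL_co, sn_complex, sn_complex q.1 (a.co i), norm_mul, mul_assoc, mul_assoc,
            mul_assoc]
          apply mul_le_mul_of_nonneg_left _ (w i).2
          apply mul_le_mul_of_nonneg_left _ (norm_nonneg _)
          rw [mul_comm (q.1 1)]
          exact mul_le_mul_of_nonneg_right (le_P_one b i) (apply_nonneg _ _)
      _ = (∑ i ∈ s, (w i : ℝ) * q.1 (a.co i)) * K.P (fun _ => 1) nrm b := by
          rw [Finset.sum_mul]
      _ ≤ _ := mul_le_mul_of_nonneg_right (K.sum_le_P w q a s) (apply_nonneg _ _)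

@[simp] theorem alg_mul_co (a b : Phi) (i : ℕ) : (alg.mul a b).co i = a.co i * b.co i := rfl

theorem mul_e (a : Phi) (k : ℕ) : alg.mul a (e k) = a.co k • e k := by
  apply K.ext; intro i
  simp only [alg_mul_co, e_co, K.smul_co, smul_eq_mul]
  split_ifs with h
  · rw [h]
  · simp

theorem e_mul (a : Phi) (k : ℕ) : alg.mul (e k) a = a.co k • e k := by
  apply K.ext; intro i
  simp only [alg_mul_co, e_co, K.smul_co, smul_eq_mul]
  split_ifs with h
  · rw [h]; ring
  · simp

theorem e_mul_e (k l : ℕ) : alg.mul (e k) (e l) = if k = l then e k else 0 := by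
  rw [e_mul, e_co]
  split_ifs <;> simp

/-- linear identification with finitely supported functions -/
noncomputable def repr : Phi ≃ₗ[ℂ] (ℕ →₀ ℂ) where
  toFun a := Finsupp.ofSupportFinite a.co (fin a)
  map_add' a b := by ext i; rfl
  map_smul' c a := by ext i; rfl
  invFun f := mk f (by
    refine f.hasFiniteSupport.subset ?_
    intro i hi; exact hi)
  left_inv a := by apply K.ext; intro i; rfl
  right_inv f := by ext i; rfl

noncomputable def basis : Module.Basis ℕ ℂ Phi := Module.Basis.ofRepr repr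

theorem basis_apply (k : ℕ) : basis k = e k := by
  apply K.ext
  intro i
  rw [e_co]
  change (Finsupp.single k (1:ℂ)) i = _
  rw [Finsupp.single_apply]
  simp [eq_comm]

theorem ml_ext {n : ℕ} {Z : Type*} [AddCommGroup Z] [Module ℂ Z]
    {f g : MultilinearMap ℂ (fun _ : Fin n => Phi) Z}
    (h : ∀ α : Fin n → ℕ, f (fun i => e (α i)) = g (fun i => e (α i))) : f = g := by
  apply Module.Basis.ext_multilinear (fun _ => basis)
  intro v
  simp only [basis_apply]
  exact h v

end Phi

variable {X : Type} [AddCommGroup X] [Module ℂ X] [UniformSpace X] [PolySpace X]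
variable {Z : Type} [AddCommGroup Z] [Module ℂ Z] [UniformSpace Z] [PolySpace Z]

/-- The model of `X ⊗^ φ^{⊗^ n}`. -/
abbrev Kn (n : ℕ) (X : Type) [AddCommGroup X] [Module ℂ X] [UniformSpace X] [PolySpace X] :
    Type := K (Fin n → ℕ) X

namespace Kn

variable {n : ℕ}

theorem prod_fin (a : Fin n → Phi) : {α : Fin n → ℕ | ∏ i, (a i).co (α i) ≠ 0}.Finite := by
  refine (Set.Finite.pi' (fun i => Phi.fin (a i))).subset ?_
  intro α hα i
  exact Finset.prod_ne_zero_iff.mp hα i (Finset.mem_univ i)

noncomputable def jj (x : X) : MultilinearMap ℂ (fun _ : Fin n => Phi) (Kn n X) where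
  toFun a := K.mk (fun α => (∏ i, (a i).co (α i)) • x) (by
    intro q hq
    refine (prod_fin a).subset ?_
    intro α hα h0
    apply hα
    rw [h0, zero_smul, map_zero])
  map_update_add' := by
    intro _ a i b c
    apply K.ext
    intro α
    simp only [K.mk_co, K.add_co]
    rw [← add_smul]
    congr 1
    have h : ∀ (d : Phi), ∏ k, (Function.update a i d k).co (α k) =
        d.co (α i) * ∏ k ∈ Finset.univ.erase i, (a k).co (α k) := by
      intro d
      rw [← Finset.mul_prod_erase _ _ (Finset.mem_univ i)]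
      congr 1
      · simp
      · apply Finset.prod_congr rfl
        intro k hk
        rw [Function.update_of_ne (Finset.ne_of_mem_erase hk)]
    have hd : ‹DecidableEq (Fin n)› = instDecidableEqFin n := Subsingleton.elim _ _
    subst hd
    rw [h, h, h, K.add_co, add_mul]
  map_update_smul' := by
    intro _ a i c b
    apply K.ext
    intro α
    simp only [K.mk_co, K.smul_co]
    rw [smul_smul]
    congr 1
    have h : ∀ (d : Phi), ∏ k, (Function.update a i d k).co (α k) =
        d.co (α i) * ∏ k ∈ Finset.univ.erase i, (a k).co (α k) := by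
      intro d
      rw [← Finset.mul_prod_erase _ _ (Finset.mem_univ i)]
      congr 1
      · simp
      · apply Finset.prod_congr rfl
        intro k hk
        rw [Function.update_of_ne (Finset.ne_of_mem_erase hk)]
    have hd : ‹DecidableEq (Fin n)› = instDecidableEqFin n := Subsingleton.elim _ _
    subst hd
    rw [h, h, K.smul_co, smul_eq_mul, mul_assoc]

theorem jj_co (x : X) (a : Fin n → Phi) (α : Fin n → ℕ) :
    (jj x a).co α = (∏ i, (a i).co (α i)) • x := rfl

/-- the canonical multilinear map -/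
noncomputable def j : X →ₗ[ℂ] MultilinearMap ℂ (fun _ : Fin n => Phi) (Kn n X) where
  toFun x := jj x
  map_add' x y := by
    ext a
    apply K.ext
    intro α
    change (∏ i, (a i).co (α i)) • (x + y) = (∏ i, (a i).co (α i)) • x + (∏ i, (a i).co (α i)) • y
    rw [smul_add]
  map_smul' c x := by
    ext a
    apply K.ext
    intro α
    change (∏ i, (a i).co (α i)) • (c • x) = c • ((∏ i, (a i).co (α i)) • x)
    rw [smul_comm]

theorem j_co (x : X) (a : Fin n → Phi) (α : Fin n → ℕ) :
    (j x a).co α = (∏ i, (a i).co (α i)) • x := rfl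

theorem j_e (x : X) (α : Fin n → ℕ) : j x (fun i => Phi.e (α i)) = K.single α x := by
  apply K.ext
  intro β
  rw [j_co, K.single_co]
  simp only [Phi.e_co]
  split_ifs with h
  · subst h
    simp
  · have : ∃ i, β i ≠ α i := by
      by_contra hcon
      push Not at hcon
      exact h (funext hcon)
    obtain ⟨i, hi⟩ := this
    rw [Finset.prod_eq_zero (Finset.mem_univ i) (by simp [hi]), zero_smul]

/-- domination of an arbitrary weight by a product weight -/
theorem weight (w : (Fin n → ℕ) → ℝ≥0) : ∃ (C : ℝ≥0) (v : ℕ → ℝ≥0),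
    ∀ α : Fin n → ℕ, w α ≤ C * ∏ i, v (α i) := by
  let v : ℕ → ℝ≥0 := fun k => 1 + ∑ β ∈ Fintype.piFinset (fun _ : Fin n => Finset.range (k+1)), w β
  refine ⟨1 + w (fun _ => 0), v, fun α => ?_⟩
  have hv1 : ∀ k, 1 ≤ v k := fun k => le_add_of_nonneg_right zero_le
  rcases Nat.eq_zero_or_pos n with hn | hn
  · subst hn
    have : α = fun _ => 0 := Subsingleton.elim _ _
    rw [this]
    simp
  · have : Nonempty (Fin n) := ⟨⟨0, hn⟩⟩
    obtain ⟨i₀, hi₀⟩ := Finite.exists_max α
    have h1 : w α ≤ v (α i₀) := by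
      have h2 : w α ≤ ∑ β ∈ Fintype.piFinset (fun _ : Fin n => Finset.range (α i₀ +1)), w β := by
        apply Finset.single_le_sum (f := w) (fun _ _ => zero_le)
        rw [Fintype.mem_piFinset]
        intro i
        rw [Finset.mem_range]
        have := hi₀ i
        omega
      exact h2.trans (le_add_of_nonneg_left zero_le)
    have h3 : v (α i₀) ≤ ∏ i, v (α i) := by
      rw [← Finset.mul_prod_erase _ _ (Finset.mem_univ i₀)]
      have : (1 : ℝ≥0) ≤ ∏ i ∈ Finset.univ.erase i₀, v (α i) := by
        apply Finset.one_le_prod'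
        intro i _
        exact hv1 _
      calc v (α i₀) = v (α i₀) * 1 := (mul_one _).symm
        _ ≤ _ := by gcongr
    calc w α ≤ 1 * ∏ i, v (α i) := by rw [one_mul]; exact h1.trans h3
      _ ≤ _ := by
        gcongr
        exact le_add_of_nonneg_right zero_le

theorem prod_sum_bound (v : ℕ → ℝ≥0) (a : Fin n → Phi) (s : Finset (Fin n → ℕ)) :
    ∑ α ∈ s, ∏ i, ((v (α i) : ℝ) * ‖(a i).co (α i)‖) ≤ ∏ i, K.P v nrm (a i) := by
  classical
  -- enlarge s to a box
  let N : ℕ := s.sup (fun α => Finset.univ.sup α)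
  have hsub : s ⊆ Fintype.piFinset (fun _ : Fin n => Finset.range (N+1)) := by
    intro α hα
    rw [Fintype.mem_piFinset]
    intro i
    rw [Finset.mem_range]
    have h1 : α i ≤ Finset.univ.sup α := Finset.le_sup (Finset.mem_univ i)
    have h2 : Finset.univ.sup α ≤ N := Finset.le_sup (f := fun α : Fin n → ℕ => Finset.univ.sup α) hα
    omega
  have hnn : ∀ α : Fin n → ℕ, 0 ≤ ∏ i, ((v (α i) : ℝ) * ‖(a i).co (α i)‖) := fun α =>
    Finset.prod_nonneg (fun i _ => mul_nonneg (v _).2 (norm_nonneg _))
  calc ∑ α ∈ s, ∏ i, ((v (α i) : ℝ) * ‖(a i).co (α i)‖)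
      ≤ ∑ α ∈ Fintype.piFinset (fun _ : Fin n => Finset.range (N+1)),
          ∏ i, ((v (α i) : ℝ) * ‖(a i).co (α i)‖) :=
        Finset.sum_le_sum_of_subset_of_nonneg hsub (fun α _ _ => hnn α)
    _ = ∏ i, ∑ k ∈ Finset.range (N+1), ((v k : ℝ) * ‖(a i).co k‖) := by
        rw [Finset.prod_univ_sum]
    _ ≤ _ := by
        apply Finset.prod_le_prod
        · intro i _
          exact Finset.sum_nonneg (fun k _ => mul_nonneg (v _).2 (norm_nonneg _))
        · intro i _
          exact K.sum_le_P v nrm (a i) _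

/-- evaluation of a multilinear-map-valued linear map -/
noncomputable def evalAt (f : X →ₗ[ℂ] MultilinearMap ℂ (fun _ : Fin n => Phi) Z) (a : Fin n → Phi) :
    X →ₗ[ℂ] Z where
  toFun x := f x a
  map_add' x y := by simp
  map_smul' c x := by simp

theorem isTensor (n : ℕ) : IsTensor X Phi (Kn n X) n j where
  cont := by
    apply multi_continuous
    intro r hr
    obtain ⟨w, q, h⟩ := K.sn_le_P r hr
    obtain ⟨C, v, hC⟩ := weight w
    refine ⟨C • q.1, ?_, K.P v nrm, K.P_cont _ _, fun x a => ?_⟩
    · have : Continuous fun x => (C : ℝ) * q.1 x := continuous_const.mul q.2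
      exact this
    refine (h _).trans ?_
    apply K.P_le_of
    intro s
    calc ∑ α ∈ s, (w α : ℝ) * q.1 ((j x a).co α)
        ≤ ∑ α ∈ s, (C : ℝ) * q.1 x * ∏ i, ((v (α i) : ℝ) * ‖(a i).co (α i)‖) := by
          apply Finset.sum_le_sum
          intro α _
          rw [j_co, map_smul_eq_mul, norm_prod, Finset.prod_mul_distrib]
          have h1 : (w α : ℝ) ≤ C * ∏ i, (v (α i) : ℝ) := by
            have := hC α
            have h2 : (w α : ℝ) ≤ ((C * ∏ i, v (α i) : ℝ≥0) : ℝ) := by exact_mod_cast this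
            simpa using h2
          have h3 : 0 ≤ (∏ i, ‖(a i).co (α i)‖) * q.1 x :=
            mul_nonneg (Finset.prod_nonneg (fun _ _ => norm_nonneg _)) (apply_nonneg _ _)
          calc (w α : ℝ) * ((∏ i, ‖(a i).co (α i)‖) * q.1 x)
              ≤ (C * ∏ i, (v (α i) : ℝ)) * ((∏ i, ‖(a i).co (α i)‖) * q.1 x) :=
                mul_le_mul_of_nonneg_right h1 h3
            _ = _ := by ring
      _ = (C : ℝ) * q.1 x * ∑ α ∈ s, ∏ i, ((v (α i) : ℝ) * ‖(a i).co (α i)‖) := by
          rw [Finset.mul_sum]
      _ ≤ (C : ℝ) * q.1 x * ∏ i, K.P v nrm (a i) :=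
          mul_le_mul_of_nonneg_left (prod_sum_bound v a s)
            (mul_nonneg C.2 (apply_nonneg _ _))
  univ := by
    intro Z _ _ _ _ f hf
    have hadm : Adm (fun α : Fin n → ℕ => evalAt f (fun i => Phi.e (α i))) := by
      intro r hr
      obtain ⟨q, hq, s, hs, h⟩ := multi_bound f hf r hr
      refine ⟨fun α => ⟨∏ i, s (Phi.e (α i)), Finset.prod_nonneg (fun i _ => apply_nonneg s _)⟩,
        q, hq, fun α x => ?_⟩
      change r (f x fun i => Phi.e (α i)) ≤ (∏ i, s (Phi.e (α i))) * q x
      rw [mul_comm]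
      exact h _ _
    refine ⟨K.lift _ hadm, ?_, ?_⟩
    · intro x a
      have h1 : ((K.lift _ hadm).toLinearMap.compMultilinearMap (j x)) = f x := by
        apply Phi.ml_ext
        intro α
        rw [LinearMap.compMultilinearMap_apply, j_e]
        exact K.lift_single _ hadm α x
      have h2 := congrArg (fun g => g a) h1
      exact h2
    · intro G hG
      apply K.clm_ext
      intro α x
      rw [K.lift_single, ← j_e, hG]
      rfl

end Kn

end Pool.Agent.HochPhi
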