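import Mathlib
import Pool.Agent.HochPhi.Phi

/-! The Hochschild differential on the models `Kn n X`. -/

open Filter Topology
open scoped NNReal

set_option linter.unusedSectionVars false

namespace Pool.Agent.HochPhi

section contraction

variable {A : Type} [AddCommGroup A] [Module ℂ A] [UniformSpace A] [PolySpace A]
  (𝒜 : PolyAlgebra A) {n : ℕ}

/-- the linear map through which coordinate `m` enters the contraction -/
noncomputable def cL (i : Fin n) (a : Fin (n + 1) → A) (m : Fin (n + 1)) : A →ₗ[ℂ] A :=
  if m = i.castSucc then 𝒜.mul.flip (a i.succ)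
  else if m = i.succ then 𝒜.mul (a i.castSucc) else LinearMap.id

theorem contract_update (i : Fin n) (a : Fin (n + 1) → A) (m : Fin (n + 1)) (v : A) :
    contract 𝒜 i (Function.update a m v) =
      Function.update (contract 𝒜 i a) (i.predAbove m) (cL 𝒜 i a m v) := by
  funext k
  simp only [contract, cL, Function.update_apply]
  rcases lt_trichotomy k i with hk | hk | hk
  · -- k < i
    have e1 : (k = i.predAbove m) ↔ (k.castSucc = m) := by
      rw [Fin.predAbove]
      split_ifs with h
      · have h' : i.val < m.val := h
        have hk' : k.val < i.val := hk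
        constructor
        · intro he
          have h2 := congrArg Fin.val he
          simp only [Fin.val_pred] at h2
          omega
        · intro he
          have h2 : k.val = m.val := congrArg Fin.val he
          omega
      · constructor
        · intro he; rw [he]; simp
        · intro he; subst he; simp
    simp only [hk, if_true, e1, hk.ne, if_false]
    by_cases hm : k.castSucc = m
    · subst hm
      have h1 : ¬ (k.castSucc = i.castSucc) := by simpa using hk.ne
      have h2 : ¬ (k.castSucc = i.succ) := by
        intro h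
        have h3 : k.val = i.val + 1 := congrArg Fin.val h
        have hk' : k.val < i.val := hk
        omega
      simp [h1, h2]
    · simp [hm]
  · subst hk
    have e1 : (k = k.predAbove m) ↔ (m = k.castSucc ∨ m = k.succ) := by
      rw [Fin.predAbove]
      split_ifs with h
      · constructor
        · intro he
          right
          rw [he]; simp
        · rintro (he | he)
          · subst he; simp at h
          · subst he; simp
      · constructor
        · intro he
          left
          rw [he]; simp
        · rintro (he | he)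
          · subst he; simp
          · subst he; simp at h
    simp only [lt_irrefl, if_false, if_true, e1]
    by_cases hm1 : m = k.castSucc
    · subst hm1
      have h2 : ¬ (k.succ = k.castSucc) := by
        intro h; have := congrArg Fin.val h; simp at this
      simp [h2]
    · by_cases hm2 : m = k.succ
      · subst hm2
        have h2 : ¬ (k.castSucc = k.succ) := by
          intro h; have := congrArg Fin.val h; simp at this
        simp [h2, Ne.symm h2]
      · simp [hm1, hm2, Ne.symm hm1, Ne.symm hm2]
  · have hk1 : ¬ k < i := not_lt.mpr hk.le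
    have hk2 : ¬ k = i := hk.ne'
    have e1 : (k = i.predAbove m) ↔ (k.succ = m) := by
      rw [Fin.predAbove]
      split_ifs with h
      · constructor
        · intro he; rw [he]; simp
        · intro he; subst he; simp
      · have h' : ¬ i.val < m.val := h
        have hk' : i.val < k.val := hk
        constructor
        · intro he
          have h2 : k.val = m.val := by rw [he]; rfl
          omega
        · intro he
          have h2 : k.val + 1 = m.val := congrArg Fin.val he
          omega
    simp only [hk1, if_false, e1, hk2]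
    by_cases hm : k.succ = m
    · subst hm
      have h1 : ¬ (k.succ = i.castSucc) := by
        intro h
        have h3 : k.val + 1 = i.val := congrArg Fin.val h
        have hk' : i.val < k.val := hk
        omega
      have h2 : ¬ (k.succ = i.succ) := by simpa using hk2
      simp [h1, hk2]
    · simp [hm]

theorem cL_update (i : Fin n) (a : Fin (n + 1) → A) (m : Fin (n + 1)) (v : A) :
    cL 𝒜 i (Function.update a m v) m = cL 𝒜 i a m := by
  simp only [cL]
  by_cases h1 : m = i.castSucc
  · subst h1
    have h2 : i.succ ≠ i.castSucc := by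
      intro h; have := congrArg Fin.val h; simp at this
    simp [Function.update_of_ne h2]
  · by_cases h2 : m = i.succ
    · subst h2
      have h3 : i.castSucc ≠ i.succ := Ne.symm h1
      simp [h1, Function.update_of_ne h3]
    · simp [h1, h2]

/-- precomposition of a multilinear map with a contraction -/
noncomputable def contractML {Z : Type*} [AddCommGroup Z] [Module ℂ Z]
    (g : MultilinearMap ℂ (fun _ : Fin n => A) Z) (i : Fin n) :
    MultilinearMap ℂ (fun _ : Fin (n + 1) => A) Z where
  toFun a := g (contract 𝒜 i a)
  map_update_add' := by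
    intro hd a m v w
    have hd' : hd = instDecidableEqFin (n+1) := Subsingleton.elim _ _
    subst hd'
    rw [contract_update, contract_update, contract_update, map_add, g.map_update_add]
  map_update_smul' := by
    intro hd a m c v
    have hd' : hd = instDecidableEqFin (n+1) := Subsingleton.elim _ _
    subst hd'
    rw [contract_update, contract_update, map_smul, g.map_update_smul]

end contraction

variable {X : Type} [AddCommGroup X] [Module ℂ X] [UniformSpace X] [PolySpace X]

/-- right action of a basis vector -/
noncomputable def rE (M : Bimodule Phi.alg X) (k : ℕ) : X →ₗ[ℂ] X := M.r.flip (Phi.e k)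

/-- left action of a basis vector -/
noncomputable def lE (M : Bimodule Phi.alg X) (k : ℕ) : X →ₗ[ℂ] X := M.l (Phi.e k)

theorem rE_apply (M : Bimodule Phi.alg X) (k : ℕ) (x : X) : rE M k x = M.r x (Phi.e k) := rfl
theorem lE_apply (M : Bimodule Phi.alg X) (k : ℕ) (x : X) : lE M k x = M.l (Phi.e k) x := rfl

theorem adm_rE (M : Bimodule Phi.alg X) : Adm (rE M) := by
  intro r hr
  obtain ⟨q, hq, s, hs, h⟩ := bilin_bound M.r M.r_cont r hr
  refine ⟨fun k => ⟨s (Phi.e k), apply_nonneg s _⟩, q, hq, fun k x => ?_⟩
  change r (M.r x (Phi.e k)) ≤ s (Phi.e k) * q x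
  rw [mul_comm]
  exact h _ _

theorem adm_lE (M : Bimodule Phi.alg X) : Adm (lE M) := by
  intro r hr
  obtain ⟨q, hq, s, hs, h⟩ := bilin_bound M.l M.l_cont r hr
  refine ⟨fun k => ⟨q (Phi.e k), apply_nonneg q _⟩, s, hs, fun k x => ?_⟩
  exact h _ _

/-- delete the `i`-th entry -/
def drop {n : ℕ} (i : Fin n) (β : Fin (n + 1) → ℕ) : Fin n → ℕ :=
  fun k => β (i.castSucc.succAbove k)

noncomputable def cf {n : ℕ} (i : Fin n) (β : Fin (n + 1) → ℕ) : ℂ :=
  if β i.castSucc = β i.succ then 1 else 0

/-- The family defining the differential. -/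
noncomputable def dfam (M : Bimodule Phi.alg X) (n : ℕ) (β : Fin (n + 1) → ℕ) :
    X →ₗ[ℂ] Kn n X :=
  (K.single (Fin.tail β)).comp (rE M (β 0))
    + ∑ i : Fin n, ((-1 : ℂ) ^ (i.val + 1) * cf i β) • K.single (drop i β)
    + (-1 : ℂ) ^ (n + 1) • (K.single (Fin.init β)).comp (lE M (β (Fin.last n)))

theorem adm_dfam (M : Bimodule Phi.alg X) (n : ℕ) : Adm (dfam M n) := by
  have h1 : Adm (fun β : Fin (n + 1) → ℕ =>
      (K.single (Fin.tail β) : X →ₗ[ℂ] Kn n X).comp (rE M (β 0))) :=
    ((K.adm_single (ι := Fin n → ℕ) (X := X)).reindex (fun β : Fin (n+1) → ℕ => Fin.tail β)).comp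
      ((adm_rE M).reindex (fun β : Fin (n+1) → ℕ => β 0))
  have h2 : Adm (fun β : Fin (n + 1) → ℕ =>
      ∑ i : Fin n, ((-1 : ℂ) ^ (i.val + 1) * cf i β) • (K.single (drop i β) : X →ₗ[ℂ] Kn n X)) := by
    apply Adm.sum
    intro i _
    exact ((K.adm_single (ι := Fin n → ℕ) (X := X)).reindex
      (fun β : Fin (n+1) → ℕ => drop i β)).smul (fun β => (-1 : ℂ) ^ (i.val + 1) * cf i β)
  have h3 : Adm (fun β : Fin (n + 1) → ℕ => (-1 : ℂ) ^ (n + 1) •
      (K.single (Fin.init β) : X →ₗ[ℂ] Kn n X).comp (lE M (β (Fin.last n)))) :=
    (((K.adm_single (ι := Fin n → ℕ) (X := X)).reindex (fun β : Fin (n+1) → ℕ => Fin.init β)).comp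
      ((adm_lE M).reindex (fun β : Fin (n+1) → ℕ => β (Fin.last n)))).smul _
  exact (h1.add h2).add h3

/-- The differential on the models. -/
noncomputable def dK (M : Bimodule Phi.alg X) (n : ℕ) : Kn (n + 1) X →L[ℂ] Kn n X :=
  K.lift (dfam M n) (adm_dfam M n)

theorem dK_single (M : Bimodule Phi.alg X) (n : ℕ) (β : Fin (n + 1) → ℕ) (x : X) :
    dK M n (K.single β x) = K.single (Fin.tail β) (M.r x (Phi.e (β 0)))
      + ∑ i : Fin n, ((-1 : ℂ) ^ (i.val + 1) * cf i β) • K.single (drop i β) x
      + (-1 : ℂ) ^ (n + 1) • K.single (Fin.init β) (M.l (Phi.e (β (Fin.last n))) x) := by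
  rw [dK, K.lift_single]
  simp only [dfam, LinearMap.add_apply, LinearMap.comp_apply, LinearMap.smul_apply,
    LinearMap.sum_apply, rE_apply, lE_apply]

theorem j_contract_e {n : ℕ} (x : X) (i : Fin n) (β : Fin (n + 1) → ℕ) :
    Kn.j x (contract Phi.alg i (fun k => Phi.e (β k))) = cf i β • K.single (drop i β) x := by
  rw [cf]
  split_ifs with h
  · rw [one_smul, ← Kn.j_e]
    congr 1
    funext k
    simp only [contract, drop]
    rcases lt_trichotomy k i with hk | hk | hk
    · rw [if_pos hk, Fin.succAbove_of_castSucc_lt _ _ (by simpa using hk)]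
    · subst hk
      rw [if_neg (lt_irrefl _), if_pos rfl, Phi.e_mul_e, if_pos h,
        Fin.succAbove_of_le_castSucc _ _ (le_refl _), h]
    · rw [if_neg (not_lt.mpr hk.le), if_neg hk.ne',
        Fin.succAbove_of_le_castSucc _ _ (by simpa using hk.le)]
  · rw [zero_smul]
    apply MultilinearMap.map_coord_zero _ i
    simp only [contract, lt_irrefl, if_false, if_true]
    rw [Phi.e_mul_e, if_neg h]

/-- The multilinear map `a ↦ y(a_last) ⊗ init a`. -/
noncomputable def lastML {n : ℕ} (M : Bimodule Phi.alg X) (x : X) :
    MultilinearMap ℂ (fun _ : Fin n => Phi) (Phi →ₗ[ℂ] Kn n X) where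
  toFun b := (Kn.evalAt Kn.j b).comp (M.l.flip x)
  map_update_add' := by
    intro _ b i v w
    apply LinearMap.ext
    intro c
    simp [Kn.evalAt]
  map_update_smul' := by
    intro _ b i t v
    apply LinearMap.ext
    intro c
    simp [Kn.evalAt]

theorem dK_j (M : Bimodule Phi.alg X) (n : ℕ) (x : X) (a : Fin (n + 1) → Phi) :
    dK M n (Kn.j x a) = Kn.j (M.r x (a 0)) (Fin.tail a)
      + ∑ i : Fin n, (-1 : ℂ) ^ (i.val + 1) • Kn.j x (contract Phi.alg i a)
      + (-1 : ℂ) ^ (n + 1) • Kn.j (M.l (a (Fin.last n)) x) (Fin.init a) := by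
  have key : (dK M n).toLinearMap.compMultilinearMap (Kn.j x) =
      ((Kn.j : X →ₗ[ℂ] MultilinearMap ℂ (fun _ : Fin n => Phi) (Kn n X)).comp (M.r x)).uncurryLeft
      + ∑ i : Fin n, (-1 : ℂ) ^ (i.val + 1) • contractML Phi.alg (Kn.j x) i
      + (-1 : ℂ) ^ (n + 1) • (lastML M x).uncurryRight := by
    apply Phi.ml_ext
    intro β
    simp only [LinearMap.compMultilinearMap_apply, add_apply, smul_apply]
    rw [Kn.j_e]
    change dK M n (K.single β x) = _
    rw [dK_single]
    congr 1
    · congr 1
      · rw [← Kn.j_e]
        rfl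
      · rw [sum_apply]
        apply Finset.sum_congr rfl
        intro i _
        rw [mul_smul, ← j_contract_e]
        rfl
    · congr 1
      rw [← Kn.j_e]
      rfl
  have h2 := congrArg (fun g => g a) key
  simp only [LinearMap.compMultilinearMap_apply, add_apply, smul_apply,
    sum_apply] at h2
  exact h2

/-- The model complex. -/
noncomputable def modelC (M : Bimodule Phi.alg X) : HComplex Phi.alg M where
  T n := Kn n X
  acg _ := inferInstance
  mod _ := inferInstance
  usp _ := inferInstance
  poly _ := inferInstance
  j _ := Kn.j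
  tensor n := Kn.isTensor n
  d n := dK M n
  d_apply n x a := dK_j M n x a

end Pool.Agent.HochPhi
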