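import Mathlib
import Pool.Agent.HochPhi.Diff

/-! Vanishing of the first homology for the models. -/

open Filter Topology
open scoped NNReal

set_option linter.unusedSectionVars false

namespace Pool.Agent.HochPhi

variable {X : Type} [AddCommGroup X] [Module ℂ X] [UniformSpace X] [PolySpace X]

/-- right action of `e k` as a continuous linear map -/
noncomputable def RC (M : Bimodule Phi.alg X) (k : ℕ) : X →L[ℂ] X where
  toLinearMap := rE M k
  cont := M.r_cont.comp (continuous_id.prodMk continuous_const)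

noncomputable def LC (M : Bimodule Phi.alg X) (a : Phi) : X →L[ℂ] X where
  toLinearMap := M.l a
  cont := M.l_cont.comp (continuous_const.prodMk continuous_id)

variable (M : Bimodule Phi.alg X)

@[simp] theorem RC_apply (k : ℕ) (x : X) : RC M k x = M.r x (Phi.e k) := rfl
@[simp] theorem LC_apply (a : Phi) (x : X) : LC M a x = M.l a x := rfl

theorem rr (k m : ℕ) (x : X) : M.r (M.r x (Phi.e k)) (Phi.e m) =
    if k = m then M.r x (Phi.e k) else 0 := by
  rw [← M.r_mul, Phi.e_mul_e]
  split_ifs <;> simp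

theorem ll (k m : ℕ) (x : X) : M.l (Phi.e k) (M.l (Phi.e m) x) =
    if k = m then M.l (Phi.e k) x else 0 := by
  rw [← M.l_mul, Phi.e_mul_e]
  split_ifs <;> simp

section cycle

variable {x : ℕ → X}
  (hx : HasSum (fun k => M.r (x k) (Phi.e k) - M.l (Phi.e k) (x k)) 0)

include hx

theorem cyc2 (m k' : ℕ) : M.l (Phi.e m) (M.r (x k') (Phi.e k')) =
    M.l (Phi.e m) (M.r (x m) (Phi.e k')) := by
  have h1 := (hx.mapL (LC M (Phi.e m))).mapL (RC M k')
  simp only [map_sub, LC_apply, RC_apply, map_zero] at h1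
  have h2 : HasSum (fun k => if k = k' then M.l (Phi.e m) (M.r (x k') (Phi.e k')) else 0)
      (M.l (Phi.e m) (M.r (x k') (Phi.e k'))) := by
    have := hasSum_ite_eq k' (M.l (Phi.e m) (M.r (x k') (Phi.e k')))
    exact this
  have h3 : HasSum (fun k => if k = m then M.l (Phi.e m) (M.r (x m) (Phi.e k')) else 0)
      (M.l (Phi.e m) (M.r (x m) (Phi.e k'))) := by
    have := hasSum_ite_eq m (M.l (Phi.e m) (M.r (x m) (Phi.e k')))
    exact this
  have h4 := h2.sub h3
  have h5 : (fun k => M.r (M.l (Phi.e m) (M.r (x k) (Phi.e k))) (Phi.e k') -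
      M.r (M.l (Phi.e m) (M.l (Phi.e k) (x k))) (Phi.e k')) =
      fun k => (if k = k' then M.l (Phi.e m) (M.r (x k') (Phi.e k')) else 0) -
        (if k = m then M.l (Phi.e m) (M.r (x m) (Phi.e k')) else 0) := by
    funext k
    congr 1
    · rw [M.lr, rr]
      by_cases h : k = k'
      · subst h; simp
      · simp [h]
    · rw [ll]
      by_cases h : k = m
      · subst h; simp [M.lr]
      · simp [h, Ne.symm h]
  rw [h5] at h1
  have h6 := h1.unique h4
  exact (sub_eq_zero.mp h6.symm)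

theorem cyc3 (m : ℕ) : HasSum (fun k => M.l (Phi.e m) (M.r (x m) (Phi.e k)))
    (M.l (Phi.e m) (x m)) := by
  have h1 := hx.mapL (LC M (Phi.e m))
  simp only [map_sub, LC_apply, map_zero] at h1
  have h3 : HasSum (fun k => if k = m then M.l (Phi.e m) (x m) else 0) (M.l (Phi.e m) (x m)) :=
    hasSum_ite_eq m _
  have h4 := h1.add h3
  rw [zero_add] at h4
  have h5 : (fun k => M.l (Phi.e m) (M.r (x m) (Phi.e k))) =
      fun k => M.l (Phi.e m) (M.r (x k) (Phi.e k)) - M.l (Phi.e m) (M.l (Phi.e k) (x k)) +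
        if k = m then M.l (Phi.e m) (x m) else 0 := by
    funext k
    rw [cyc2 M hx m k, ll]
    by_cases h : k = m
    · subst h; simp
    · simp [h, Ne.symm h]
  rw [h5]
  exact h4

theorem cyc4 (m : ℕ) : HasSum (fun k => M.l (Phi.e k) (M.r (x k) (Phi.e m)))
    (M.r (x m) (Phi.e m)) := by
  have h1 := hx.mapL (RC M m)
  simp only [map_sub, RC_apply, map_zero] at h1
  have h3 : HasSum (fun k => if k = m then M.r (x m) (Phi.e m) else 0) (M.r (x m) (Phi.e m)) :=
    hasSum_ite_eq m _
  have h4 := h3.sub h1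
  rw [sub_zero] at h4
  have h5 : (fun k => M.l (Phi.e k) (M.r (x k) (Phi.e m))) =
      fun k => (if k = m then M.r (x m) (Phi.e m) else 0) -
        (M.r (M.r (x k) (Phi.e k)) (Phi.e m) - M.r (M.l (Phi.e k) (x k)) (Phi.e m)) := by
    funext k
    rw [rr, M.lr]
    by_cases h : k = m
    · subst h; simp
    · simp [h]
  rw [h5]
  exact h4

end cycle

theorem dK0_single (β : Fin 1 → ℕ) (x : X) :
    dK M 0 (K.single β x) = K.single default (M.r x (Phi.e (β 0)) - M.l (Phi.e (β 0)) x) := by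
  rw [dK_single]
  have h1 : Fin.tail β = default := Subsingleton.elim _ _
  have h2 : Fin.init β = default := Subsingleton.elim _ _
  rw [h1, h2, map_sub]
  simp [sub_eq_add_neg]

theorem dK1_single (β : Fin 2 → ℕ) (x : X) :
    dK M 1 (K.single β x) = K.single (fun _ => β 1) (M.r x (Phi.e (β 0)))
      - (if β 0 = β 1 then K.single (fun _ => β 1) x else 0)
      + K.single (fun _ => β 0) (M.l (Phi.e (β 1)) x) := by
  rw [dK_single]
  have h1 : Fin.tail β = fun _ => β 1 := by
    funext i; rw [Subsingleton.elim i 0]; rfl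
  have h2 : Fin.init β = fun _ => β 0 := by
    funext i; rw [Subsingleton.elim i 0]; rfl
  have h3 : drop (0 : Fin 1) β = fun _ => β 1 := by
    funext i; rw [Subsingleton.elim i 0]; rfl
  rw [h1, h2]
  simp only [Fin.sum_univ_one, h3, cf]
  have e1 : (0 : Fin 1).castSucc = (0 : Fin 2) := rfl
  have e2 : (0 : Fin 1).succ = (1 : Fin 2) := rfl
  have e3 : Fin.last 1 = (1 : Fin 2) := rfl
  rw [e1, e2, e3]
  split_ifs <;> simp [sub_eq_add_neg]

theorem cycle_hasSum (z : Kn 1 X) (hz : dK M 0 z = 0) :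
    HasSum (fun k : ℕ => M.r (z.co fun _ => k) (Phi.e k) - M.l (Phi.e k) (z.co fun _ => k)) 0 := by
  have h1 := (K.hasSum_single z).mapL ((K.ev default).comp (dK M 0))
  simp only [ContinuousLinearMap.comp_apply, hz, map_zero, dK0_single, K.ev_apply,
    K.single_same] at h1
  have h2 := (Equiv.funUnique (Fin 1) ℕ).symm.hasSum_iff.mpr h1
  exact h2

/-- duplicate the entry -/
def dup (β : Fin 1 → ℕ) : Fin 2 → ℕ := fun _ => β 0

noncomputable def S1 (X : Type) [AddCommGroup X] [Module ℂ X] [UniformSpace X] [PolySpace X] :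
    Kn 1 X →L[ℂ] Kn 2 X :=
  K.lift (fun β => K.single (dup β)) ((K.adm_single (ι := Fin 2 → ℕ) (X := X)).reindex dup)

theorem adm_S3 : Adm (fun β : Fin 1 → ℕ =>
    (K.single (dup β) : X →ₗ[ℂ] Kn 2 X).comp ((lE M (β 0)).comp (rE M (β 0)))) :=
  ((K.adm_single (ι := Fin 2 → ℕ) (X := X)).reindex dup).comp
    (((adm_lE M).reindex (fun β : Fin 1 → ℕ => β 0)).comp
      ((adm_rE M).reindex (fun β : Fin 1 → ℕ => β 0)))

noncomputable def S3 : Kn 1 X →L[ℂ] Kn 2 X :=
  K.lift (fun β => (K.single (dup β)).comp ((lE M (β 0)).comp (rE M (β 0)))) (adm_S3 M)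

theorem fin1_eq (β : Fin 1 → ℕ) : (fun _ => β 0) = β := by
  funext i; rw [Subsingleton.elim i 0]

theorem dS1 (z : Kn 1 X) (β : Fin 1 → ℕ) : (dK M 1 (S1 X z)).co β =
    M.r (z.co β) (Phi.e (β 0)) - z.co β + M.l (Phi.e (β 0)) (z.co β) := by
  have h : ((K.ev β).comp ((dK M 1).comp (S1 X))) =
      ((RC M (β 0)) - ContinuousLinearMap.id ℂ X + LC M (Phi.e (β 0))).comp (K.ev β) := by
    apply K.clm_ext
    intro γ x
    simp only [ContinuousLinearMap.comp_apply, S1, K.lift_single, dK1_single, K.ev_apply,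
      add_apply, sub_apply, ContinuousLinearMap.id_apply, RC_apply, LC_apply]
    have e0 : dup γ 0 = γ 0 := rfl
    have e1 : dup γ 1 = γ 0 := rfl
    rw [e0, e1, if_pos rfl, fin1_eq, K.add_co, K.sub_co]
    by_cases hβ : β = γ
    · subst hβ; simp
    · simp [K.single_ne hβ]
  have := congrArg (fun F => F z) h
  exact this

theorem dS3 (z : Kn 1 X) (β : Fin 1 → ℕ) : (dK M 1 (S3 M z)).co β =
    M.l (Phi.e (β 0)) (M.r (z.co β) (Phi.e (β 0))) := by
  have h : ((K.ev β).comp ((dK M 1).comp (S3 M))) =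
      ((LC M (Phi.e (β 0))).comp (RC M (β 0))).comp (K.ev β) := by
    apply K.clm_ext
    intro γ x
    simp only [ContinuousLinearMap.comp_apply, S3, K.lift_single, K.ev_apply,
      RC_apply, LC_apply, LinearMap.comp_apply, rE_apply, lE_apply]
    rw [dK1_single]
    have e0 : dup γ 0 = γ 0 := rfl
    have e1 : dup γ 1 = γ 0 := rfl
    rw [e0, e1, if_pos rfl, fin1_eq, K.add_co, K.sub_co]
    by_cases hβ : β = γ
    · subst hβ
      simp only [K.single_same, M.lr, rr, ll, if_true, sub_self, zero_add]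
    · simp [K.single_ne hβ]
  have := congrArg (fun F => F z) h
  exact this

section main

variable (z : Kn 1 X) (hz : dK M 0 z = 0)

/-- the coordinates `x_k` of `z` -/
def xx (z : Kn 1 X) (k : ℕ) : X := z.co fun _ => k

theorem xx_fin (q : Seminorm ℂ X) (hq : Continuous q) : {k | q (xx z k) ≠ 0}.Finite := by
  have h := z.fin q hq
  refine Set.Finite.preimage (f := fun k : ℕ => (fun _ => k : Fin 1 → ℕ)) ?_ h
  intro a _ b _ hab
  exact congrFun hab 0

include hz in
theorem Y2_fin (q : Seminorm ℂ X) (hq : Continuous q) :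
    {β : Fin 2 → ℕ | q (M.l (Phi.e (β 1)) (M.r (xx z (β 1)) (Phi.e (β 0)))) ≠ 0}.Finite := by
  obtain ⟨s, hs, q2, hq2, h1⟩ := bilin_bound M.l M.l_cont q hq
  obtain ⟨q3, hq3, t, ht, h2⟩ := bilin_bound M.r M.r_cont q2 hq2
  have hx := cycle_hasSum M z hz
  refine (Set.Finite.pi' (fun _ : Fin 2 => xx_fin z q3 hq3)).subset ?_
  intro β hβ i
  have key : ∀ j k l : ℕ, q3 (xx z l) = 0 → q (M.l (Phi.e k) (M.r (xx z l) (Phi.e j))) = 0 := by
    intro j k l h0
    apply le_antisymm _ (apply_nonneg q _)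
    calc q (M.l (Phi.e k) (M.r (xx z l) (Phi.e j))) ≤ s (Phi.e k) * q2 (M.r (xx z l) (Phi.e j)) :=
          h1 _ _
      _ ≤ s (Phi.e k) * (q3 (xx z l) * t (Phi.e j)) :=
          mul_le_mul_of_nonneg_left (h2 _ _) (apply_nonneg s _)
      _ = 0 := by rw [h0]; ring
  intro h0
  apply hβ
  have hi : i = 0 ∨ i = 1 := by
    rcases i with ⟨i, hi⟩
    interval_cases i
    · left; rfl
    · right; rfl
  rcases hi with hi | hi
  · subst hi
    have h3 := cyc2 M hx (β 1) (β 0)
    have h4 : M.l (Phi.e (β 1)) (M.r (xx z (β 1)) (Phi.e (β 0))) =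
        M.l (Phi.e (β 1)) (M.r (xx z (β 0)) (Phi.e (β 0))) := h3.symm
    rw [h4]
    exact key _ _ _ h0
  · subst hi
    exact key _ _ _ h0

noncomputable def Y2 (z : Kn 1 X) (hz : dK M 0 z = 0) : Kn 2 X :=
  K.mk (fun β => M.l (Phi.e (β 1)) (M.r (xx z (β 1)) (Phi.e (β 0)))) (Y2_fin M z hz)

theorem dY2 (β : Fin 1 → ℕ) : (dK M 1 (Y2 M z hz)).co β =
    M.l (Phi.e (β 0)) (z.co β) - M.l (Phi.e (β 0)) (M.r (z.co β) (Phi.e (β 0)))
      + M.r (z.co β) (Phi.e (β 0)) := by
  have hx := cycle_hasSum M z hz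
  set m := β 0 with hm
  have hβ : β = fun _ => m := (fin1_eq β).symm
  have hzm : z.co β = xx z m := by rw [hβ]; rfl
  have h1 := (K.hasSum_single (Y2 M z hz)).mapL ((K.ev β).comp (dK M 1))
  have hf : (fun γ : Fin 2 → ℕ =>
      ((K.ev β).comp (dK M 1)) (K.single γ ((Y2 M z hz).co γ))) = fun γ =>
      (if γ 1 = m then M.l (Phi.e m) (M.r (xx z m) (Phi.e (γ 0))) else 0)
      - (if γ 0 = m ∧ γ 1 = m then M.l (Phi.e m) (M.r (xx z m) (Phi.e m)) else 0)
      + (if γ 0 = m then M.l (Phi.e (γ 1)) (M.r (xx z (γ 1)) (Phi.e m)) else 0) := by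
    funext γ
    rw [ContinuousLinearMap.comp_apply, dK1_single, K.ev_apply, K.add_co, K.sub_co]
    have hY : (Y2 M z hz).co γ = M.l (Phi.e (γ 1)) (M.r (xx z (γ 1)) (Phi.e (γ 0))) := rfl
    rw [hY]
    congr 1
    · congr 1
      · by_cases h : γ 1 = m
        · rw [if_pos h, hβ, h, K.single_same, M.lr, rr, if_pos rfl]
        · rw [if_neg h, K.single_ne]
          intro he; apply h; rw [hβ] at he; exact (congrFun he 0).symm
      · by_cases h : γ 0 = m ∧ γ 1 = m
        · rw [if_pos h, if_pos (h.1.trans h.2.symm), hβ, h.2, K.single_same, h.1]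
        · rw [if_neg h]
          split_ifs with h2
          · rw [K.single_ne]
            intro he; apply h; rw [hβ] at he
            have : m = γ 1 := congrFun he 0
            exact ⟨h2.trans this.symm, this.symm⟩
          · rfl
    · by_cases h : γ 0 = m
      · rw [if_pos h, hβ, h, K.single_same, ll, if_pos rfl]
      · rw [if_neg h, K.single_ne]
        intro he; apply h; rw [hβ] at he; exact (congrFun he 0).symm
  rw [hf] at h1
  have inj1 : Function.Injective (fun k : ℕ => (![k, m] : Fin 2 → ℕ)) := by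
    intro a b hab; exact congrFun hab 0
  have inj2 : Function.Injective (fun k : ℕ => (![m, k] : Fin 2 → ℕ)) := by
    intro a b hab; exact congrFun hab 1
  have hA : HasSum (fun γ : Fin 2 → ℕ =>
      if γ 1 = m then M.l (Phi.e m) (M.r (xx z m) (Phi.e (γ 0))) else 0)
      (M.l (Phi.e m) (xx z m)) := by
    rw [← inj1.hasSum_iff]
    · have := cyc3 M hx m
      simpa [Function.comp_def, xx] using this
    · intro γ hγ
      rw [if_neg]
      intro h
      apply hγ
      refine ⟨γ 0, ?_⟩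
      funext i
      rcases i with ⟨i, hi⟩
      interval_cases i
      · rfl
      · exact h.symm
  have hB : HasSum (fun γ : Fin 2 → ℕ =>
      if γ 0 = m ∧ γ 1 = m then M.l (Phi.e m) (M.r (xx z m) (Phi.e m)) else 0)
      (M.l (Phi.e m) (M.r (xx z m) (Phi.e m))) := by
    have h2 := _root_.hasSum_single (f := fun γ : Fin 2 → ℕ =>
      if γ 0 = m ∧ γ 1 = m then M.l (Phi.e m) (M.r (xx z m) (Phi.e m)) else 0)
      (fun _ => m) (by
        intro γ hγ
        rw [if_neg]
        rintro ⟨h0, h1⟩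
        apply hγ
        funext i
        rcases i with ⟨i, hi⟩
        interval_cases i
        · exact h0
        · exact h1)
    simpa using h2
  have hC : HasSum (fun γ : Fin 2 → ℕ =>
      if γ 0 = m then M.l (Phi.e (γ 1)) (M.r (xx z (γ 1)) (Phi.e m)) else 0)
      (M.r (xx z m) (Phi.e m)) := by
    rw [← inj2.hasSum_iff]
    · have := cyc4 M hx m
      simpa [Function.comp_def, xx] using this
    · intro γ hγ
      rw [if_neg]
      intro h
      apply hγ
      refine ⟨γ 1, ?_⟩
      funext i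
      rcases i with ⟨i, hi⟩
      interval_cases i
      · exact h.symm
      · rfl
  have h3 := h1.unique ((hA.sub hB).add hC)
  rw [hzm]
  exact h3

end main

theorem H1_model (z : Kn 1 X) (hz : dK M 0 z = 0) : ∃ y : Kn 2 X, dK M 1 y = z := by
  refine ⟨-(S1 X z) + Y2 M z hz + S3 M z, ?_⟩
  apply K.ext
  intro β
  rw [map_add, map_add, map_neg, K.add_co, K.add_co, K.neg_co, dS1, dS3, dY2]
  abel

end Pool.Agent.HochPhi
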