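import Mathlib
import Pool.Agent.HochPhi.H1

/-! Dimension shift. -/

open Filter Topology
open scoped NNReal

set_option linter.unusedSectionVars false

namespace Pool.Agent.HochPhi

variable {X : Type} [AddCommGroup X] [Module ℂ X] [UniformSpace X] [PolySpace X]
variable (M : Bimodule Phi.alg X)

/-- `D y = ∑ y_k e_k`. -/
noncomputable def DD : K ℕ X →L[ℂ] X := K.lift (rE M) (adm_rE M)

theorem DD_single (k : ℕ) (x : X) : DD M (K.single k x) = M.r x (Phi.e k) := by
  rw [DD, K.lift_single, rE_apply]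

theorem DD_r (y : K ℕ X) (m : ℕ) : M.r (DD M y) (Phi.e m) = M.r (y.co m) (Phi.e m) := by
  have h1 := (K.lift_hasSum (rE M) (adm_rE M) y).mapL (RC M m)
  have h2 : (fun k => RC M m (rE M k (y.co k))) =
      fun k => if k = m then M.r (y.co m) (Phi.e m) else 0 := by
    funext k
    rw [rE_apply, RC_apply, rr]
    by_cases h : k = m
    · subst h; simp
    · simp [h]
  rw [h2] at h1
  exact h1.unique (hasSum_ite_eq m _)

theorem DD_l (a : Phi) (y z : K ℕ X) (hz : ∀ k, z.co k = M.l a (y.co k)) :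
    DD M z = M.l a (DD M y) := by
  have h1 := (K.lift_hasSum (rE M) (adm_rE M) y).mapL (LC M a)
  have h2 := K.lift_hasSum (rE M) (adm_rE M) z
  have h3 : (fun k => LC M a (rE M k (y.co k))) = fun k => rE M k (z.co k) := by
    funext k
    rw [rE_apply, LC_apply, rE_apply, hz, M.lr]
  rw [h3] at h1
  exact h2.unique h1

theorem DD_zero (y z : K ℕ X) (b : Phi) (hz : ∀ k, z.co k = b.co k • (y.co k - DD M y)) :
    DD M z = 0 := by
  have h2 := K.lift_hasSum (rE M) (adm_rE M) z
  have h3 : (fun k => rE M k (z.co k)) = fun _ => 0 := by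
    funext k
    rw [rE_apply, hz, map_smul, map_sub, LinearMap.smul_apply, LinearMap.sub_apply, DD_r,
      sub_self, smul_zero]
  rw [h3] at h2
  exact h2.unique hasSum_zero

/-- left action on `K ℕ X` -/
noncomputable def sl : Phi →ₗ[ℂ] K ℕ X →ₗ[ℂ] K ℕ X :=
  LinearMap.mk₂ ℂ (fun a y => K.mk (fun k => M.l a (y.co k)) (by
      intro q hq
      exact y.fin (q.comp (M.l a)) (hq.comp (LC M a).continuous)))
    (by intro a a' b; apply K.ext; intro i; simp <;> rfl)
    (by intro c a b; apply K.ext; intro i; simp <;> rfl)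
    (by intro a b b'; apply K.ext; intro i; simp <;> rfl)
    (by intro c a b; apply K.ext; intro i; simp <;> rfl)

@[simp] theorem sl_co (a : Phi) (y : K ℕ X) (k : ℕ) : (sl M a y).co k = M.l a (y.co k) := rfl

/-- right action on `K ℕ X` -/
noncomputable def sr : K ℕ X →ₗ[ℂ] Phi →ₗ[ℂ] K ℕ X :=
  LinearMap.mk₂ ℂ (fun y b => K.mk (fun k => b.co k • (y.co k - DD M y)) (by
      intro q hq
      refine (Phi.fin b).subset ?_
      intro k hk h0
      apply hk
      rw [h0, zero_smul, map_zero]))
    (by intro a a' b; apply K.ext; intro i; simp only [K.mk_co, K.add_co, map_add, smul_sub, smul_add]; abel)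
    (by intro c a b; apply K.ext; intro i; simp only [K.mk_co, K.smul_co, map_smul]; rw [← smul_sub, smul_comm])
    (by intro a b b'; apply K.ext; intro i; simp only [K.mk_co, K.add_co, add_smul])
    (by intro c a b; apply K.ext; intro i; simp only [K.mk_co, K.smul_co, smul_eq_mul, mul_smul])

@[simp] theorem sr_co (y : K ℕ X) (b : Phi) (k : ℕ) :
    (sr M y b).co k = b.co k • (y.co k - DD M y) := rfl

/-- The shifted bimodule. -/
noncomputable def shiftM : Bimodule Phi.alg (K ℕ X) where
  l := sl M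
  r := sr M
  l_mul a b x := by
    apply K.ext; intro k
    rw [sl_co, sl_co, sl_co, M.l_mul]
  r_mul x a b := by
    apply K.ext; intro k
    rw [sr_co, sr_co, sr_co, DD_zero M x (sr M x a) a (fun k => rfl), sub_zero, Phi.alg_mul_co,
      smul_smul, mul_comm]
  lr a x b := by
    apply K.ext; intro k
    rw [sr_co, sl_co, sl_co, sr_co, DD_l M a x (sl M a x) (fun k => rfl), map_smul, map_sub]
  l_cont := by
    apply bilin_continuous
    intro r hr
    obtain ⟨w, q, h⟩ := K.sn_le_P r hr
    obtain ⟨s, hs, q2, hq2, h1⟩ := bilin_bound M.l M.l_cont q.1 q.2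
    refine ⟨s, hs, K.P w ⟨q2, hq2⟩, K.P_cont _ _, fun a y => ?_⟩
    refine (h _).trans ?_
    apply K.P_le_of
    intro t
    calc ∑ k ∈ t, (w k : ℝ) * q.1 ((sl M a y).co k)
        ≤ ∑ k ∈ t, s a * ((w k : ℝ) * q2 (y.co k)) := by
          apply Finset.sum_le_sum
          intro k _
          rw [sl_co]
          calc (w k : ℝ) * q.1 (M.l a (y.co k)) ≤ w k * (s a * q2 (y.co k)) :=
                mul_le_mul_of_nonneg_left (h1 _ _) (w k).2
            _ = _ := by ring
      _ = s a * ∑ k ∈ t, (w k : ℝ) * q2 (y.co k) := by rw [Finset.mul_sum]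
      _ ≤ _ := mul_le_mul_of_nonneg_left (K.sum_le_P w ⟨q2, hq2⟩ y t) (apply_nonneg _ _)
  r_cont := by
    apply bilin_continuous
    intro r hr
    obtain ⟨w, q, h⟩ := K.sn_le_P r hr
    refine ⟨K.P (fun _ => 1) q + q.1.comp (DD M : K ℕ X →ₗ[ℂ] X),
      (K.P_cont _ _).add (q.2.comp (DD M).continuous), K.P w nrm, K.P_cont _ _, fun y b => ?_⟩
    refine (h _).trans ?_
    apply K.P_le_of
    intro t
    change _ ≤ (K.P (fun _ => 1) q y + q.1 (DD M y)) * K.P w nrm b
    have hc : ∀ k, q.1 (y.co k - DD M y) ≤ K.P (fun _ => 1) q y + q.1 (DD M y) := by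
      intro k
      have h2 := map_sub_le_add q.1 (y.co k) (DD M y)
      have h3 := K.term_le (fun _ => 1) q y k
      simp only [NNReal.coe_one, one_mul] at h3
      linarith
    calc ∑ k ∈ t, (w k : ℝ) * q.1 ((sr M y b).co k)
        ≤ ∑ k ∈ t, (K.P (fun _ => 1) q y + q.1 (DD M y)) * ((w k : ℝ) * nrm.1 (b.co k)) := by
          apply Finset.sum_le_sum
          intro k _
          rw [sr_co, map_smul_eq_mul, nrm_apply]
          calc (w k : ℝ) * (‖b.co k‖ * q.1 (y.co k - DD M y))
              = ((w k : ℝ) * ‖b.co k‖) * q.1 (y.co k - DD M y) := by ring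
            _ ≤ ((w k : ℝ) * ‖b.co k‖) * (K.P (fun _ => 1) q y + q.1 (DD M y)) :=
                mul_le_mul_of_nonneg_left (hc k) (mul_nonneg (w k).2 (norm_nonneg _))
            _ = _ := by ring
      _ = (K.P (fun _ => 1) q y + q.1 (DD M y)) * ∑ k ∈ t, (w k : ℝ) * nrm.1 (b.co k) := by
          rw [Finset.mul_sum]
      _ ≤ _ := mul_le_mul_of_nonneg_left (K.sum_le_P w nrm b t)
          (add_nonneg (apply_nonneg _ _) (apply_nonneg _ _))

theorem sr_single (k m : ℕ) (x : X) : (shiftM M).r (K.single k x) (Phi.e m) =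
    (if k = m then K.single m x else 0) - K.single m (M.r x (Phi.e k)) := by
  apply K.ext
  intro i
  change (sr M (K.single k x) (Phi.e m)).co i = _
  rw [sr_co, DD_single, Phi.e_co, K.sub_co]
  by_cases hi : i = m
  · subst hi
    rw [if_pos rfl, one_smul, K.single_same]
    by_cases hk : k = i
    · subst hk; simp
    · rw [if_neg hk, K.single_ne (Ne.symm hk), K.zero_co]
  · rw [if_neg hi, zero_smul, K.single_ne hi]
    split_ifs
    · rw [K.single_ne hi, sub_zero]
    · simp

theorem sl_single (k m : ℕ) (x : X) : (shiftM M).l (Phi.e m) (K.single k x) =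
    K.single k (M.l (Phi.e m) x) := by
  apply K.ext
  intro i
  change (sl M (Phi.e m) (K.single k x)).co i = _
  rw [sl_co]
  by_cases hi : i = k
  · subst hi; simp
  · rw [K.single_ne hi, K.single_ne hi, map_zero]

/-! the identification `Kn n (K ℕ X) = Kn (n+1) X` -/

theorem th_fin {n : ℕ} (z : Kn n (K ℕ X)) (q : Seminorm ℂ X) (hq : Continuous q) :
    {β : Fin (n+1) → ℕ | q ((z.co (Fin.tail β)).co (β 0)) ≠ 0}.Finite := by
  have h1 := z.fin (K.P (fun _ => 1) ⟨q, hq⟩) (K.P_cont _ _)
  have h2 : (⋃ α ∈ {α | K.P (fun _ => 1) ⟨q, hq⟩ (z.co α) ≠ 0},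
      (fun k : ℕ => (Fin.cons k α : Fin (n+1) → ℕ)) '' {k | q ((z.co α).co k) ≠ 0}).Finite := by
    apply h1.biUnion
    intro α _
    exact ((z.co α).fin q hq).image _
  refine h2.subset ?_
  intro β hβ
  simp only [Set.mem_iUnion]
  refine ⟨Fin.tail β, ?_, β 0, hβ, Fin.cons_self_tail β⟩
  intro h0
  apply hβ
  have h3 := K.term_le (fun _ => 1) ⟨q, hq⟩ (z.co (Fin.tail β)) (β 0)
  rw [h0] at h3
  simp only [NNReal.coe_one, one_mul] at h3
  exact le_antisymm h3 (apply_nonneg _ _)

noncomputable def thL (n : ℕ) (X : Type) [AddCommGroup X] [Module ℂ X] [UniformSpace X]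
    [PolySpace X] : Kn n (K ℕ X) →ₗ[ℂ] Kn (n+1) X where
  toFun z := K.mk (fun β => (z.co (Fin.tail β)).co (β 0)) (th_fin z)
  map_add' _ _ := rfl
  map_smul' _ _ := rfl

theorem thL_co {n : ℕ} (z : Kn n (K ℕ X)) (β : Fin (n+1) → ℕ) :
    (thL n X z).co β = (z.co (Fin.tail β)).co (β 0) := rfl

noncomputable def th (n : ℕ) (X : Type) [AddCommGroup X] [Module ℂ X] [UniformSpace X]
    [PolySpace X] : Kn n (K ℕ X) →L[ℂ] Kn (n+1) X where
  toLinearMap := thL n X
  cont := by
    classical
    apply continuous_of_sn (thL n X)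
    intro r hr
    obtain ⟨w, q, h⟩ := K.sn_le_P r hr
    obtain ⟨C, v, hC⟩ := Kn.weight w
    refine ⟨K.P (fun α : Fin n → ℕ => C * ∏ i, v (α i)) ⟨K.P v q, K.P_cont _ _⟩, K.P_cont _ _,
      fun z => ?_⟩
    refine (h _).trans ?_
    apply K.P_le_of
    intro s
    let F : (Fin n → ℕ) × ℕ → ℝ := fun p =>
      ((C : ℝ) * ∏ i, (v (p.1 i) : ℝ)) * ((v p.2 : ℝ) * q.1 ((z.co p.1).co p.2))
    have hF : ∀ p, 0 ≤ F p := fun p => mul_nonneg
      (mul_nonneg C.2 (Finset.prod_nonneg fun i _ => (v _).2))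
      (mul_nonneg (v _).2 (apply_nonneg _ _))
    calc ∑ β ∈ s, (w β : ℝ) * q.1 ((thL n X z).co β)
        ≤ ∑ β ∈ s, F (Fin.tail β, β 0) := by
          apply Finset.sum_le_sum
          intro β _
          rw [thL_co]
          have h2 : (w β : ℝ) ≤ (C : ℝ) * ∏ i, (v (β i) : ℝ) := by
            have h3 : (w β : ℝ) ≤ ((C * ∏ i, v (β i) : ℝ≥0) : ℝ) := by exact_mod_cast hC β
            simpa using h3
          calc (w β : ℝ) * q.1 ((z.co (Fin.tail β)).co (β 0))
              ≤ ((C : ℝ) * ∏ i, (v (β i) : ℝ)) * q.1 ((z.co (Fin.tail β)).co (β 0)) :=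
                mul_le_mul_of_nonneg_right h2 (apply_nonneg _ _)
            _ = F (Fin.tail β, β 0) := by
                rw [Fin.prod_univ_succ]
                change _ = ((C : ℝ) * ∏ i, (v (β (Fin.succ i)) : ℝ)) *
                  ((v (β 0) : ℝ) * q.1 ((z.co (Fin.tail β)).co (β 0)))
                ring
      _ = ∑ p ∈ s.image (fun β => (Fin.tail β, β 0)), F p := by
          rw [Finset.sum_image]
          intro a _ b _ hab
          simp only [Prod.mk.injEq] at hab
          rw [← Fin.cons_self_tail a, ← Fin.cons_self_tail b, hab.1, hab.2]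
      _ ≤ ∑ p ∈ (s.image (fun β => Fin.tail β)) ×ˢ (s.image (fun β => β 0)), F p := by
          apply Finset.sum_le_sum_of_subset_of_nonneg
          · intro p hp
            rw [Finset.mem_image] at hp
            obtain ⟨β, hβ, rfl⟩ := hp
            rw [Finset.mem_product]
            exact ⟨Finset.mem_image_of_mem _ hβ, Finset.mem_image_of_mem (fun β => β 0) hβ⟩
          · intro p _ _
            exact hF p
      _ = ∑ α ∈ s.image (fun β => Fin.tail β), ((C : ℝ) * ∏ i, (v (α i) : ℝ)) *
            ∑ k ∈ s.image (fun β => β 0), (v k : ℝ) * q.1 ((z.co α).co k) := by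
          rw [Finset.sum_product]
          apply Finset.sum_congr rfl
          intro α _
          rw [Finset.mul_sum]
      _ ≤ ∑ α ∈ s.image (fun β => Fin.tail β), ((C : ℝ) * ∏ i, (v (α i) : ℝ)) *
            K.P v q (z.co α) := by
          apply Finset.sum_le_sum
          intro α _
          exact mul_le_mul_of_nonneg_left (K.sum_le_P v q (z.co α) _)
            (mul_nonneg C.2 (Finset.prod_nonneg fun i _ => (v _).2))
      _ ≤ _ := by
          have h5 := K.sum_le_P (fun α : Fin n → ℕ => C * ∏ i, v (α i))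
            ⟨K.P v q, K.P_cont _ _⟩ z (s.image (fun β => Fin.tail β))
          refine le_trans (le_of_eq ?_) h5
          apply Finset.sum_congr rfl
          intro α _
          push_cast
          rfl

theorem th_co {n : ℕ} (z : Kn n (K ℕ X)) (β : Fin (n+1) → ℕ) :
    (th n X z).co β = (z.co (Fin.tail β)).co (β 0) := rfl

theorem th_inj {n : ℕ} {z : Kn n (K ℕ X)} (h : th n X z = 0) : z = 0 := by
  apply K.ext
  intro α
  apply K.ext
  intro k
  have h1 : (th n X z).co (Fin.cons k α) = 0 := by rw [h]; rfl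
  rw [th_co] at h1
  simpa using h1

theorem th_surj {n : ℕ} (z : Kn (n+1) X) : ∃ y : Kn n (K ℕ X), th n X y = z := by
  have hslice : ∀ α : Fin n → ℕ, ∀ q : Seminorm ℂ X, Continuous q →
      {k : ℕ | q (z.co (Fin.cons k α)) ≠ 0}.Finite := by
    intro α q hq
    refine Set.Finite.preimage (f := fun k : ℕ => (Fin.cons k α : Fin (n+1) → ℕ)) ?_ (z.fin q hq)
    intro a _ b _ hab
    exact (Fin.cons_injective2 hab).1
  refine ⟨K.mk (fun α => K.mk (fun k => z.co (Fin.cons k α)) (hslice α)) ?_, ?_⟩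
  · intro r hr
    obtain ⟨w, q, h⟩ := K.sn_le_P r hr
    refine ((z.fin q.1 q.2).image (fun β => Fin.tail β)).subset ?_
    intro α hα
    by_contra hcon
    apply hα
    apply le_antisymm _ (apply_nonneg r _)
    refine (h _).trans (le_of_eq ?_)
    apply K.P_eq_zero
    intro k
    rw [K.mk_co]
    by_contra hne
    apply hcon
    exact ⟨Fin.cons k α, hne, rfl⟩
  · apply K.ext
    intro β
    rw [th_co, K.mk_co, K.mk_co, Fin.cons_self_tail]

theorem th_single {n : ℕ} (α : Fin n → ℕ) (k : ℕ) (x : X) :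
    th n X (K.single α (K.single k x)) = K.single (Fin.cons k α) x := by
  apply K.ext
  intro β
  rw [th_co]
  by_cases h1 : Fin.tail β = α
  · subst h1
    rw [K.single_same]
    by_cases h2 : β 0 = k
    · subst h2
      rw [K.single_same, Fin.cons_self_tail, K.single_same]
    · rw [K.single_ne h2, K.single_ne]
      intro h; apply h2; rw [h]; rfl
  · rw [K.single_ne h1, K.zero_co, K.single_ne]
    intro h; apply h1; rw [h, Fin.tail_cons]

theorem shift_single {n : ℕ} (α : Fin (n+1) → ℕ) (k : ℕ) (x : X) :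
    dK M (n+1) (th (n+1) X (K.single α (K.single k x))) =
      - th n X (dK (shiftM M) n (K.single α (K.single k x))) := by
  rw [th_single, dK_single, dK_single, sr_single, sl_single, Fin.sum_univ_succ]
  simp only [map_add, map_sub, map_smul, map_sum, th_single]
  have e1 : cf (0 : Fin (n+1)) (Fin.cons k α : Fin (n+2) → ℕ) = if k = α 0 then 1 else 0 := by
    rw [cf]; rfl
  have e2 : drop (0 : Fin (n+1)) (Fin.cons k α : Fin (n+2) → ℕ) = α := by
    funext j
    change (Fin.cons k α : Fin (n+2) → ℕ) ((0 : Fin (n+2)).succAbove j) = α j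
    rw [Fin.zero_succAbove, Fin.cons_succ]
  have e3 : ∀ i : Fin n, cf i.succ (Fin.cons k α : Fin (n+2) → ℕ) = cf i α := by
    intro i
    rw [cf, cf]
    rfl
  have e4 : ∀ i : Fin n, drop i.succ (Fin.cons k α : Fin (n+2) → ℕ) =
      Fin.cons k (drop i α) := by
    intro i
    funext j
    refine Fin.cases ?_ (fun j => ?_) j
    · rw [Fin.cons_zero]
      change (Fin.cons k α : Fin (n+2) → ℕ) ((i.succ.castSucc).succAbove 0) = k
      rw [Fin.succAbove_of_castSucc_lt _ _ (by simp [Fin.lt_def])]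
      rfl
    · rw [Fin.cons_succ]
      change (Fin.cons k α : Fin (n+2) → ℕ) ((i.succ.castSucc).succAbove j.succ) =
        α (i.castSucc.succAbove j)
      rw [← Fin.succ_castSucc, Fin.succ_succAbove_succ, Fin.cons_succ]
  have e5 : Fin.tail (Fin.cons k α : Fin (n+2) → ℕ) = α := rfl
  have e6 : (Fin.cons (α 0) (Fin.tail α) : Fin (n+1) → ℕ) = α := Fin.cons_self_tail α
  have e7 : (Fin.init (Fin.cons k α : Fin (n+2) → ℕ)) = Fin.cons k (Fin.init α) := by
    funext j
    refine Fin.cases ?_ (fun j => ?_) j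
    · rfl
    · rfl
  have e8 : (Fin.cons k α : Fin (n+2) → ℕ) (Fin.last (n+1)) = α (Fin.last n) := by
    rw [← Fin.succ_last, Fin.cons_succ]
  have e9 : (Fin.cons k α : Fin (n+2) → ℕ) 0 = k := rfl
  rw [e1, e2, e5, e7, e8, e9, e6]
  simp only [e3, e4]
  have e10 : (th n X) (K.single (Fin.tail α) (if k = α 0 then K.single (α 0) x else 0)) =
      (if k = α 0 then (1:ℂ) else 0) • K.single α x := by
    split_ifs with h
    · rw [th_single, e6, one_smul]
    · rw [map_zero, map_zero, zero_smul]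
  rw [e10]
  have e11 : ∑ i : Fin n, ((-1 : ℂ) ^ (i.succ.val + 1) * cf i α) •
      (K.single (Fin.cons k (drop i α)) x : Kn (n+1) X) =
      - ∑ i : Fin n, ((-1 : ℂ) ^ (i.val + 1) * cf i α) •
        (K.single (Fin.cons k (drop i α)) x : Kn (n+1) X) := by
    rw [← Finset.sum_neg_distrib]
    apply Finset.sum_congr rfl
    intro i _
    rw [← neg_smul]
    congr 1
    rw [Fin.val_succ, pow_succ]
    ring
  rw [e11, pow_succ (-1 : ℂ) (n+1)]
  simp only [Fin.val_zero, zero_add, pow_one, mul_neg, mul_one, neg_mul, one_mul, neg_smul]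
  abel

theorem shift {n : ℕ} (z : Kn (n+1) (K ℕ X)) :
    dK M (n+1) (th (n+1) X z) = - th n X (dK (shiftM M) n z) := by
  have h : (dK M (n+1)).comp (th (n+1) X) = -((th n X).comp (dK (shiftM M) n)) := by
    apply K.clm_ext
    intro α y
    have h2 : ((dK M (n+1)).comp (th (n+1) X)).comp (K.singleL α) =
        (-((th n X).comp (dK (shiftM M) n))).comp (K.singleL α) := by
      apply K.clm_ext
      intro k x
      exact shift_single M α k x
    exact congrArg (fun F => F y) h2
  exact congrArg (fun F => F z) h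

/-- `Ker d_k ⊆ Im d_{k+1}` on the models, for every bimodule. -/
theorem vanish_model (k : ℕ) : ∀ {X : Type} [AddCommGroup X] [Module ℂ X] [UniformSpace X]
    [PolySpace X] (M : Bimodule Phi.alg X) (z : Kn (k+1) X), dK M k z = 0 →
      ∃ y : Kn (k+2) X, dK M (k+1) y = z := by
  induction k with
  | zero => intro X _ _ _ _ M z hz; exact H1_model M z hz
  | succ k ih =>
    intro X _ _ _ _ M z hz
    obtain ⟨z', rfl⟩ := th_surj z
    rw [shift, neg_eq_zero] at hz
    have h1 := th_inj hz
    obtain ⟨y', hy'⟩ := ih (shiftM M) z' h1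
    refine ⟨th (k+2) X (-y'), ?_⟩
    rw [shift, map_neg, map_neg, neg_neg, hy']

theorem dd_zero_model (k : ℕ) : ∀ {X : Type} [AddCommGroup X] [Module ℂ X] [UniformSpace X]
    [PolySpace X] (M : Bimodule Phi.alg X) (z : Kn (k+2) X), dK M k (dK M (k+1) z) = 0 := by
  induction k with
  | zero =>
    intro X _ _ _ _ M z
    have h : (dK M 0).comp (dK M 1) = 0 := by
      apply K.clm_ext
      intro β x
      rw [ContinuousLinearMap.comp_apply, dK1_single, map_add, map_sub, dK0_single, dK0_single]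
      simp only [rr, ll, M.lr]
      split_ifs with h1
      · rw [dK0_single, h1]; simp
      all_goals simp_all
    exact congrArg (fun F => F z) h
  | succ k ih =>
    intro X _ _ _ _ M z
    obtain ⟨z', rfl⟩ := th_surj z
    rw [shift, map_neg, shift, neg_neg, ih, map_zero]

end Pool.Agent.HochPhi
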