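import Mathlib
import Pool.Agent.HochPhi.Shift

/-! Uniqueness of the Hochschild complex, and conclusion. -/

open Filter Topology
open scoped NNReal

set_option linter.unusedSectionVars false

namespace Pool.Agent.HochPhi

section compare

variable {A : Type} [AddCommGroup A] [Module ℂ A] [UniformSpace A] [PolySpace A]
  {𝒜 : PolyAlgebra A} {X : Type} [AddCommGroup X] [Module ℂ X] [UniformSpace X]
  [PolySpace X] {M : Bimodule 𝒜 X}

/-- the comparison map between two Hochschild complexes -/
noncomputable def cmp (C C' : HComplex 𝒜 M) (n : ℕ) : C.T n →L[ℂ] C'.T n :=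
  ((C.tensor n).univ (C'.T n) (C'.j n) (C'.tensor n).cont).choose

theorem cmp_j (C C' : HComplex 𝒜 M) (n : ℕ) (x : X) (a : Fin n → A) :
    cmp C C' n (C.j n x a) = C'.j n x a :=
  ((C.tensor n).univ (C'.T n) (C'.j n) (C'.tensor n).cont).choose_spec.1 x a

theorem cmp_cmp (C C' : HComplex 𝒜 M) (n : ℕ) (z : C.T n) : cmp C' C n (cmp C C' n z) = z := by
  have hu := (C.tensor n).univ (C.T n) (C.j n) (C.tensor n).cont
  have h1 : (cmp C' C n).comp (cmp C C' n) = ContinuousLinearMap.id ℂ (C.T n) := by
    apply hu.unique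
    · intro x a
      rw [ContinuousLinearMap.comp_apply, cmp_j, cmp_j]
    · intro x a
      rfl
  exact congrArg (fun F => F z) h1

/-- composition with a continuous linear map -/
noncomputable def pushF {X A T Z : Type} [AddCommGroup X] [Module ℂ X]
    [AddCommGroup A] [Module ℂ A] [AddCommGroup T] [Module ℂ T] [AddCommGroup Z] [Module ℂ Z]
    {n : ℕ} (G : T →ₗ[ℂ] Z) (f : X →ₗ[ℂ] MultilinearMap ℂ (fun _ : Fin n => A) T) :
    X →ₗ[ℂ] MultilinearMap ℂ (fun _ : Fin n => A) Z where
  toFun x := G.compMultilinearMap (f x)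
  map_add' x y := by ext a; simp
  map_smul' c x := by ext a; simp

theorem cmp_d (C C' : HComplex 𝒜 M) (n : ℕ) (z : C.T (n+1)) :
    cmp C C' n (C.d n z) = C'.d n (cmp C C' (n+1) z) := by
  have hu := (C.tensor (n+1)).univ (C'.T n) (pushF (C'.d n : C'.T (n+1) →ₗ[ℂ] C'.T n) (C'.j (n+1)))
    ((C'.d n).continuous.comp (C'.tensor (n+1)).cont)
  have h1 : (cmp C C' n).comp (C.d n) = (C'.d n).comp (cmp C C' (n+1)) := by
    apply hu.unique
    · intro x a
      change cmp C C' n (C.d n (C.j (n+1) x a)) = C'.d n (C'.j (n+1) x a)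
      rw [C.d_apply, C'.d_apply]
      simp only [map_add, map_sum, map_smul, cmp_j]
    · intro x a
      change C'.d n (cmp C C' (n+1) (C.j (n+1) x a)) = C'.d n (C'.j (n+1) x a)
      rw [cmp_j]
  exact congrArg (fun F => F z) h1

theorem vanish_transfer (C C' : HComplex 𝒜 M) (k : ℕ)
    (h : ∀ z : C'.T (k+1), C'.d k z = 0 ↔ ∃ y : C'.T (k+2), C'.d (k+1) y = z) :
    ∀ z : C.T (k+1), C.d k z = 0 ↔ ∃ y : C.T (k+2), C.d (k+1) y = z := by
  intro z
  constructor
  · intro hz
    have h1 : C'.d k (cmp C C' (k+1) z) = 0 := by rw [← cmp_d, hz, map_zero]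
    obtain ⟨y, hy⟩ := (h _).mp h1
    refine ⟨cmp C' C (k+2) y, ?_⟩
    rw [← cmp_d, hy, cmp_cmp]
  · rintro ⟨y, rfl⟩
    have h1 : C'.d k (cmp C C' (k+1) (C.d (k+1) y)) = 0 := by
      rw [cmp_d]
      exact (h _).mpr ⟨_, rfl⟩
    rw [← cmp_d] at h1
    have h2 := congrArg (cmp C' C k) h1
    rwa [cmp_cmp, map_zero] at h2

theorem closed_transfer (C C' : HComplex 𝒜 M) (h : IsClosed (Set.range (C.d 0))) :
    IsClosed (Set.range (C'.d 0)) := by
  have e : Set.range (C'.d 0) = (cmp C' C 0) ⁻¹' (Set.range (C.d 0)) := by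
    ext z
    constructor
    · rintro ⟨y, rfl⟩
      exact ⟨cmp C' C 1 y, (cmp_d C' C 0 y).symm⟩
    · rintro ⟨y, hy⟩
      refine ⟨cmp C C' 1 y, ?_⟩
      rw [← cmp_d, hy, cmp_cmp]
  rw [e]
  exact h.preimage (cmp C' C 0).continuous

end compare

/-! ### the bimodule showing non-amenability -/

open scoped BoundedContinuousFunction

abbrev LInf : Type := ℕ →ᵇ ℂ

instance : PolySpace LInf where
  uag := inferInstance
  csm := inferInstance
  poly := inferInstance
  complete := inferInstance
  t2 := inferInstance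

theorem phi_bdd (a : Phi) : ∀ k, ‖a.co k‖ ≤ K.P (fun _ => 1) nrm a := Phi.le_P_one a

noncomputable def toInf : Phi →ₗ[ℂ] LInf where
  toFun a := BoundedContinuousFunction.ofNormedAddCommGroupDiscrete a.co
    (K.P (fun _ => 1) nrm a) (phi_bdd a)
  map_add' a b := by ext k; simp
  map_smul' c a := by ext k; simp

@[simp] theorem toInf_apply (a : Phi) (k : ℕ) : toInf a k = a.co k := rfl

/-- `ℓ^∞` with zero left action and pointwise right action. -/
noncomputable def MInf : Bimodule Phi.alg LInf where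
  l := 0
  r := (LinearMap.mul ℂ LInf).compl₂ toInf
  l_mul a b x := by simp
  r_mul x a b := by
    apply BoundedContinuousFunction.ext
    intro k
    change x k * (a.co k * b.co k) = (x k * a.co k) * b.co k
    ring
  lr a x b := by simp
  l_cont := by
    have : (fun p : Phi × LInf => (0 : Phi →ₗ[ℂ] LInf →ₗ[ℂ] LInf) p.1 p.2) = fun _ => 0 := by
      funext p; simp
    rw [this]
    exact continuous_const
  r_cont := by
    have hc : Continuous (toInf : Phi → LInf) := by
      apply continuous_of_sn toInf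
      intro r hr
      obtain ⟨C, hC, h⟩ := Seminorm.bound_of_continuous_normedSpace r hr
      let c : ℝ≥0 := ⟨C, hC.le⟩
      refine ⟨c • K.P (fun _ => 1) nrm, ?_, fun a => ?_⟩
      · have : Continuous fun a : Phi => C * K.P (fun _ => 1) nrm a :=
          continuous_const.mul (K.P_cont _ _)
        exact this
      · refine (h _).trans ?_
        change C * ‖toInf a‖ ≤ C * K.P (fun _ => 1) nrm a
        apply mul_le_mul_of_nonneg_left _ hC.le
        rw [BoundedContinuousFunction.norm_le (apply_nonneg _ _)]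
        exact phi_bdd a
    exact continuous_fst.mul (hc.comp continuous_snd)

theorem MInf_r (x : LInf) (a : Phi) (k : ℕ) : MInf.r x a k = x k * a.co k := rfl
theorem MInf_l (x : LInf) (a : Phi) : MInf.l a x = 0 := rfl

noncomputable def nrmInf : {q : Seminorm ℂ LInf // Continuous q} :=
  ⟨normSeminorm ℂ LInf, continuous_norm⟩

/-- elements of the range of `d_0` are finitely supported -/
theorem range_fin (z : Kn 1 LInf) : {k | (dK MInf 0 z).co default k ≠ 0}.Finite := by
  have hfin := z.fin nrmInf.1 nrmInf.2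
  have h1 := (K.hasSum_single z).mapL ((K.ev default).comp (dK MInf 0))
  have h0 : ∀ β : Fin 1 → ℕ, β ∉ hfin.toFinset → z.co β = 0 := by
    intro β hβ
    simp only [Set.Finite.mem_toFinset] at hβ
    by_contra hne
    apply hβ
    intro h
    apply hne
    exact norm_eq_zero.mp h
  have h2 : (dK MInf 0 z).co default =
      ∑ β ∈ hfin.toFinset, MInf.r (z.co β) (Phi.e (β 0)) := by
    have h3 : HasSum (fun β => ((K.ev default).comp (dK MInf 0)) (K.single β (z.co β)))
        (∑ β ∈ hfin.toFinset, ((K.ev default).comp (dK MInf 0)) (K.single β (z.co β))) :=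
      hasSum_sum_of_ne_finset_zero
        (by intro β hβ; rw [h0 β hβ, map_zero, map_zero])
    have h4 := h1.unique h3
    have h5 : ((K.ev default).comp (dK MInf 0)) z = (dK MInf 0 z).co default := rfl
    rw [← h5, h4]
    apply Finset.sum_congr rfl
    intro β _
    rw [ContinuousLinearMap.comp_apply, dK0_single, MInf_l, sub_zero, K.ev_apply, K.single_same]
  refine (hfin.image (fun β => β 0)).subset ?_
  intro k hk
  by_contra hcon
  apply hk
  rw [h2, BoundedContinuousFunction.coe_sum, Finset.sum_apply]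
  apply Finset.sum_eq_zero
  intro β hβ
  rw [MInf_r, Phi.e_co, if_neg, mul_zero]
  intro h
  apply hcon
  refine ⟨β, ?_, h.symm⟩
  simpa using hβ

/-- the sequence `1/(k+1)` -/
noncomputable def harm : LInf := BoundedContinuousFunction.ofNormedAddCommGroupDiscrete
  (fun k : ℕ => ((k : ℂ) + 1)⁻¹) 1 (by
    intro k
    rw [norm_inv]
    have : (1 : ℝ) ≤ ‖(k : ℂ) + 1‖ := by
      have h : ((k : ℂ) + 1) = ((k + 1 : ℕ) : ℂ) := by push_cast; ring
      rw [h, Complex.norm_natCast]
      exact_mod_cast Nat.succ_le_succ (Nat.zero_le k)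
    exact inv_le_one_of_one_le₀ this)

theorem harm_apply (k : ℕ) : harm k = ((k : ℂ) + 1)⁻¹ := rfl

theorem not_closed : ¬ IsClosed (Set.range (dK MInf 0)) := by
  intro hcl
  -- truncations
  let tr : ℕ → LInf := fun N => ∑ k ∈ Finset.range N, MInf.r harm (Phi.e k)
  have htr : ∀ N k, tr N k = if k < N then harm k else 0 := by
    intro N k
    change (∑ k ∈ Finset.range N, MInf.r harm (Phi.e k)) k = _
    rw [BoundedContinuousFunction.coe_sum, Finset.sum_apply]
    simp only [MInf_r, Phi.e_co, mul_ite, mul_one, mul_zero]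
    rw [Finset.sum_ite_eq]
    simp
  have hlim : Tendsto tr atTop (𝓝 harm) := by
    rw [tendsto_iff_norm_sub_tendsto_zero]
    have hb : ∀ N : ℕ, ‖tr N - harm‖ ≤ 1 / ((N : ℝ) + 1) := by
      intro N
      rw [BoundedContinuousFunction.norm_le (by positivity)]
      intro k
      rw [BoundedContinuousFunction.coe_sub, Pi.sub_apply, htr]
      split_ifs with h
      · rw [sub_self, norm_zero]; positivity
      · rw [zero_sub, norm_neg, harm_apply, norm_inv, ← one_div]
        have h2 : ((k : ℂ) + 1) = ((k + 1 : ℕ) : ℂ) := by push_cast; ring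
        rw [h2, Complex.norm_natCast]
        push_cast
        apply one_div_le_one_div_of_le (by positivity)
        have : (N : ℝ) ≤ k := by exact_mod_cast not_lt.mp h
        linarith
    exact squeeze_zero (fun _ => norm_nonneg _) hb tendsto_one_div_add_atTop_nhds_zero_nat
  have hmem : ∀ N, (K.singleL (default : Fin 0 → ℕ) (tr N) : Kn 0 LInf) ∈
      Set.range (dK MInf 0) := by
    intro N
    refine ⟨∑ k ∈ Finset.range N, K.single (fun _ => k) harm, ?_⟩
    have e1 : dK MInf 0 (∑ k ∈ Finset.range N, K.single (fun _ => k) harm) =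
        ∑ k ∈ Finset.range N, dK MInf 0 (K.single (fun _ => k) harm) := map_sum _ _ _
    have e2 : (K.singleL (default : Fin 0 → ℕ) (tr N) : Kn 0 LInf) =
        ∑ k ∈ Finset.range N, K.single (default : Fin 0 → ℕ) (MInf.r harm (Phi.e k)) :=
      map_sum (K.single (default : Fin 0 → ℕ) : LInf →ₗ[ℂ] Kn 0 LInf) _ _
    rw [e1, e2]
    apply Finset.sum_congr rfl
    intro k _
    rw [dK0_single, MInf_l, sub_zero]
  have hl2 : Tendsto (fun N => (K.singleL (default : Fin 0 → ℕ) (tr N) : Kn 0 LInf)) atTop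
      (𝓝 (K.singleL default harm)) := ((K.singleL default).continuous.tendsto _).comp hlim
  obtain ⟨z, hz⟩ := hcl.mem_of_tendsto hl2 (Filter.Eventually.of_forall hmem)
  have h1 := range_fin z
  rw [hz] at h1
  have h2 : {k | (K.singleL (default : Fin 0 → ℕ) harm : Kn 0 LInf).co default k ≠ 0} =
      Set.univ := by
    ext k
    simp only [Set.mem_univ, iff_true]
    change (K.singleL (default : Fin 0 → ℕ) harm : Kn 0 LInf).co default k ≠ 0
    rw [K.singleL_apply, K.single_same, harm_apply]
    apply inv_ne_zero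
    exact Nat.cast_add_one_ne_zero k
  rw [h2] at h1
  exact Set.infinite_univ h1

theorem main : ∃ (A : Type) (_ : AddCommGroup A) (_ : Module ℂ A) (_ : UniformSpace A)
    (_ : PolySpace A) (𝒜 : PolyAlgebra A),
    (∀ (X : Type) [AddCommGroup X] [Module ℂ X] [UniformSpace X] [PolySpace X]
      (M : Bimodule 𝒜 X), Nonempty (HComplex 𝒜 M) ∧
        ∀ (C : HComplex 𝒜 M) (k : ℕ), C.VanishSucc k) ∧ ¬ Amenable 𝒜 := by
  refine ⟨Phi, inferInstance, inferInstance, inferInstance, inferInstance, Phi.alg, ?_, ?_⟩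
  · intro X _ _ _ _ M
    refine ⟨⟨modelC M⟩, fun C k => ?_⟩
    apply vanish_transfer C (modelC M) k
    intro z
    constructor
    · exact vanish_model k M z
    · rintro ⟨y, rfl⟩
      exact dd_zero_model k M y
  · intro h
    exact not_closed (h LInf MInf (modelC MInf)).2

end Pool.Agent.HochPhi
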