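import Mathlib

/-! Hochschild homology of polynormed algebras: the definitions used in the statement. -/

namespace Pool.Agent.HochPhi.Stmt

/-- A complete Hausdorff locally convex space over `ℂ` (the topology is given by seminorms). -/
structure LCS where
  E : Type
  [grp : AddCommGroup E]
  [mod : Module ℂ E]
  [uni : UniformSpace E]
  [uag : IsUniformAddGroup E]
  [poly : PolynormableSpace ℂ E]
  [complete : CompleteSpace E]
  [t2 : T2Space E]

attribute [instance] LCS.grp LCS.mod LCS.uni LCS.uag LCS.poly LCS.complete LCS.t2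

/-- Linear maps. -/
def Lin (X Y : LCS) (f : X.E → Y.E) : Prop :=
  ∀ (c : ℂ) (x y : X.E), f (c • x + y) = c • f x + f y

/-- Jointly continuous bilinear maps. -/
def Bil (X Y Z : LCS) (f : X.E → Y.E → Z.E) : Prop :=
  (∀ y, Lin X Z (fun x => f x y)) ∧ (∀ x, Lin Y Z (f x)) ∧
    Continuous (fun p : X.E × Y.E => f p.1 p.2)

/-- Jointly continuous multilinear maps `X × A^n → Z`. -/
def Mult (X A Z : LCS) (n : ℕ) (f : X.E → (Fin n → A.E) → Z.E) : Prop :=
  (∀ a, Lin X Z (fun x => f x a)) ∧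
    (∀ x a (i : Fin n), Lin A Z (fun v => f x (Function.update a i v))) ∧
    Continuous (fun p : X.E × (Fin n → A.E) => f p.1 p.2)

/-- A polynormed algebra: a complete Hausdorff locally convex space with a bilinear,
associative, jointly continuous multiplication (no unit is required). -/
structure PolyAlg where
  A : LCS
  mul : A.E → A.E → A.E
  bil : Bil A A A mul
  assoc : ∀ a b c, mul (mul a b) c = mul a (mul b c)

/-- A complete Hausdorff locally convex bimodule with jointly continuous actions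
`l a x = a · x` and `r x a = x · a`. -/
structure Bimod (𝒜 : PolyAlg) where
  X : LCS
  l : 𝒜.A.E → X.E → X.E
  r : X.E → 𝒜.A.E → X.E
  l_bil : Bil 𝒜.A X X l
  r_bil : Bil X 𝒜.A X r
  l_mul : ∀ a b x, l (𝒜.mul a b) x = l a (l b x)
  r_mul : ∀ x a b, r x (𝒜.mul a b) = r (r x a) b
  lr : ∀ a x b, r (l a x) b = l a (r x b)

/-- `(T, j)` is the completed projective tensor product `X ⊗^ A ⊗^ ⋯ ⊗^ A` (`n` copies of `A`):
`j (x, a_1, …, a_n) = x ⊗ a_1 ⊗ ⋯ ⊗ a_n` is the universal jointly continuous multilinear map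
from `X × A^n` to complete Hausdorff locally convex spaces. -/
def IsTensor (X A T : LCS) (n : ℕ) (j : X.E → (Fin n → A.E) → T.E) : Prop :=
  Mult X A T n j ∧ ∀ (Z : LCS) (f : X.E → (Fin n → A.E) → Z.E), Mult X A Z n f →
    ∃! F : T.E → Z.E, Lin T Z F ∧ Continuous F ∧ ∀ x a, F (j x a) = f x a

/-- `(a_0, …, a_n) ↦ (a_0, …, a_i a_{i+1}, …, a_n)`. -/
def contract (𝒜 : PolyAlg) {n : ℕ} (i : Fin n) (a : Fin (n + 1) → 𝒜.A.E) : Fin n → 𝒜.A.E :=
  fun k => if k < i then a k.castSucc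
    else if k = i then 𝒜.mul (a k.castSucc) (a k.succ) else a k.succ

/-- The Hochschild chain complex of `𝒜` with coefficients in `M`:
`T n = C_n(A, X) = X ⊗^ A^{⊗^ n}` and
`d n (x ⊗ a_0 ⊗ ⋯ ⊗ a_n) = x a_0 ⊗ a_1 ⊗ ⋯ ⊗ a_n
  + ∑_{i < n} (-1)^{i+1} x ⊗ a_0 ⊗ ⋯ ⊗ a_i a_{i+1} ⊗ ⋯ ⊗ a_n
  + (-1)^{n+1} a_n x ⊗ a_0 ⊗ ⋯ ⊗ a_{n-1}`.
By the universal property it is unique up to a canonical isomorphism. -/
structure HComplex {𝒜 : PolyAlg} (M : Bimod 𝒜) where
  T : ℕ → LCS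
  j : ∀ n, M.X.E → (Fin n → 𝒜.A.E) → (T n).E
  tensor : ∀ n, IsTensor M.X 𝒜.A (T n) n (j n)
  d : ∀ n, (T (n + 1)).E → (T n).E
  d_lin : ∀ n, Lin (T (n + 1)) (T n) (d n)
  d_cont : ∀ n, Continuous (d n)
  d_apply : ∀ n x a, d n (j (n + 1) x a) = j n (M.r x (a 0)) (fun i => a i.succ)
      + ∑ i : Fin n, (-1 : ℂ) ^ (i.val + 1) • j n x (contract 𝒜 i a)
      + (-1 : ℂ) ^ (n + 1) • j n (M.l (a (Fin.last n)) x) (fun i => a i.castSucc)

/-- `ℋ_{k+1}(A, X) = 0`, i.e. `Ker d_k = Im d_{k+1}`. -/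
def VanishSucc {𝒜 : PolyAlg} {M : Bimod 𝒜} (C : HComplex M) (k : ℕ) : Prop :=
  ∀ z : (C.T (k + 1)).E, C.d k z = 0 ↔ ∃ y, C.d (k + 1) y = z

/-- `𝒜` is amenable: `ℋ_1(A, X) = 0` and `ℋ_0(A, X)` is Hausdorff (that is, `Im d_0` is
closed) for every bimodule `X`. -/
def Amenable (𝒜 : PolyAlg) : Prop :=
  ∀ (M : Bimod 𝒜) (C : HComplex M), VanishSucc C 0 ∧ IsClosed (Set.range (C.d 0))

end Pool.Agent.HochPhi.Stmt
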