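import Mathlib
import Pool.Agent.HochPhi.Final
import Pool.Agent.HochPhi.Stmt

/-! Translation between the bundled statement and the development. -/

open Filter Topology

set_option linter.unusedSectionVars false

namespace Pool.Agent.HochPhi.Glue

open Pool.Agent.HochPhi
open Pool.Agent.HochPhi.Stmt (LCS Lin Bil Mult PolyAlg Bimod)

instance instPoly (X : LCS) : PolySpace X.E where
  uag := inferInstance
  csm := (PolynormableSpace.withSeminorms ℂ X.E).continuousSMul
  poly := inferInstance
  complete := inferInstance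
  t2 := inferInstance

def ofSp (E : Type) [AddCommGroup E] [Module ℂ E] [UniformSpace E] [PolySpace E] : LCS where
  E := E

/-- linear map from `Lin` -/
def toLin {X Y : LCS} (f : X.E → Y.E) (h : Lin X Y f) : X.E →ₗ[ℂ] Y.E where
  toFun := f
  map_add' x y := by
    have := h 1 x y
    simpa using this
  map_smul' c x := by
    have h0 : f 0 = 0 := by
      have h1 := h 1 0 0
      simp only [smul_zero, add_zero, one_smul] at h1
      have h2 : f 0 + 0 = f 0 + f 0 := by rw [add_zero]; exact h1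
      exact (add_left_cancel h2).symm
    have h2 := h c x 0
    rw [add_zero, h0, add_zero] at h2
    exact h2

theorem lin_of {X Y : LCS} (f : X.E →ₗ[ℂ] Y.E) : Lin X Y f := by
  intro c x y
  rw [map_add, map_smul]

/-- continuous linear map -/
def toCLM {X Y : LCS} (f : X.E → Y.E) (h : Lin X Y f) (hc : Continuous f) : X.E →L[ℂ] Y.E where
  toLinearMap := toLin f h
  cont := hc

/-- multilinear map from `Mult` -/
def toMult {X A Z : LCS} {n : ℕ} (f : X.E → (Fin n → A.E) → Z.E) (h : Mult X A Z n f) :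
    X.E →ₗ[ℂ] MultilinearMap ℂ (fun _ : Fin n => A.E) Z.E where
  toFun x :=
    { toFun := f x
      map_update_add' := by
        intro hd a i v w
        have hd' : hd = instDecidableEqFin n := Subsingleton.elim _ _
        subst hd'
        exact (toLin _ (h.2.1 x a i)).map_add v w
      map_update_smul' := by
        intro hd a i c v
        have hd' : hd = instDecidableEqFin n := Subsingleton.elim _ _
        subst hd'
        exact (toLin _ (h.2.1 x a i)).map_smul c v }
  map_add' x y := by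
    ext a
    exact (toLin _ (h.1 a)).map_add x y
  map_smul' c x := by
    ext a
    exact (toLin _ (h.1 a)).map_smul c x

theorem toMult_apply {X A Z : LCS} {n : ℕ} (f : X.E → (Fin n → A.E) → Z.E)
    (h : Mult X A Z n f) (x : X.E) (a : Fin n → A.E) : toMult f h x a = f x a := rfl

theorem mult_of {X A Z : LCS} {n : ℕ}
    (f : X.E →ₗ[ℂ] MultilinearMap ℂ (fun _ : Fin n => A.E) Z.E)
    (hf : Continuous fun p : X.E × (Fin n → A.E) => f p.1 p.2) :
    Mult X A Z n (fun x a => f x a) := by
  refine ⟨fun a c x y => ?_, fun x a i c v w => ?_, hf⟩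
  · simp
  · simp

theorem bil_of {X Y Z : LCS} (f : X.E →ₗ[ℂ] Y.E →ₗ[ℂ] Z.E)
    (hf : Continuous fun p : X.E × Y.E => f p.1 p.2) : Bil X Y Z (fun x y => f x y) := by
  refine ⟨fun y c a b => ?_, fun x c a b => ?_, hf⟩
  · simp
  · simp

/-- from a bundled tensor product to an unbundled one -/
theorem tensor_to {X A T : LCS} {n : ℕ} {j : X.E → (Fin n → A.E) → T.E}
    (h : Stmt.IsTensor X A T n j) : IsTensor X.E A.E T.E n (toMult j h.1) where
  cont := h.1.2.2
  univ := by
    intro Z _ _ _ _ f hf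
    obtain ⟨F, ⟨hF1, hF2, hF3⟩, hu⟩ := h.2 (ofSp Z) (fun x a => f x a)
      (mult_of (X := X) (A := A) (Z := ofSp Z) f hf)
    refine ⟨toCLM (X := T) (Y := ofSp Z) F hF1 hF2, hF3, ?_⟩
    intro G hG
    have h1 := hu (fun t => G t) ⟨lin_of (X := T) (Y := ofSp Z) G.toLinearMap, G.continuous, hG⟩
    apply ContinuousLinearMap.ext
    intro t
    exact congrFun h1 t

/-- from an unbundled tensor product to a bundled one -/
theorem tensor_from {X A T : LCS} {n : ℕ}
    (j : X.E →ₗ[ℂ] MultilinearMap ℂ (fun _ : Fin n => A.E) T.E)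
    (h : IsTensor X.E A.E T.E n j) : Stmt.IsTensor X A T n (fun x a => j x a) := by
  refine ⟨mult_of j h.cont, ?_⟩
  intro Z f hf
  obtain ⟨F, hF, hu⟩ := h.univ Z.E (toMult f hf) hf.2.2
  refine ⟨fun t => F t, ⟨lin_of F.toLinearMap, F.continuous, hF⟩, ?_⟩
  rintro G ⟨hG1, hG2, hG3⟩
  have h1 := hu (toCLM G hG1 hG2) hG3
  funext t
  exact congrArg (fun H : T.E →L[ℂ] Z.E => H t) h1

/-- the bundled algebra -/
noncomputable def phiAlg : PolyAlg where
  A := ofSp Phi
  mul a b := Phi.alg.mul a b
  bil := bil_of (X := ofSp Phi) (Y := ofSp Phi) (Z := ofSp Phi) Phi.alg.mul Phi.alg.cont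
  assoc := Phi.alg.assoc

def bilTo {X Y Z : LCS} (f : X.E → Y.E → Z.E) (h : Bil X Y Z f) : X.E →ₗ[ℂ] Y.E →ₗ[ℂ] Z.E where
  toFun x := toLin (f x) (h.2.1 x)
  map_add' x y := by
    ext t
    exact (toLin _ (h.1 t)).map_add x y
  map_smul' c x := by
    ext t
    exact (toLin _ (h.1 t)).map_smul c x

/-- unbundle a bimodule -/
noncomputable def unM (M : Bimod phiAlg) : Bimodule Phi.alg M.X.E where
  l := bilTo (X := ofSp Phi) M.l M.l_bil
  r := bilTo (Y := ofSp Phi) M.r M.r_bil
  l_mul := M.l_mul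
  r_mul := M.r_mul
  lr := M.lr
  l_cont := M.l_bil.2.2
  r_cont := M.r_bil.2.2

theorem contract_eq {n : ℕ} (i : Fin n) (a : Fin (n + 1) → Phi) :
    Stmt.contract phiAlg i a = contract Phi.alg i a := rfl

/-- unbundle a complex -/
noncomputable def unC {M : Bimod phiAlg} (C : Stmt.HComplex M) : HComplex Phi.alg (unM M) where
  T n := (C.T n).E
  acg _ := inferInstance
  mod _ := inferInstance
  usp _ := inferInstance
  poly _ := inferInstance
  j n := toMult (A := ofSp Phi) (C.j n) (C.tensor n).1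
  tensor n := tensor_to (A := ofSp Phi) (C.tensor n)
  d n := toCLM (C.d n) (C.d_lin n) (C.d_cont n)
  d_apply n x a := C.d_apply n x a

/-- bundle the model complex -/
noncomputable def buC (M : Bimod phiAlg) : Stmt.HComplex M where
  T n := ofSp (Kn n M.X.E)
  j n := fun x a => (Kn.j : M.X.E →ₗ[ℂ] MultilinearMap ℂ (fun _ : Fin n => Phi) (Kn n M.X.E)) x a
  tensor n := tensor_from (A := ofSp Phi) (T := ofSp (Kn n M.X.E)) Kn.j (Kn.isTensor n)
  d n := dK (unM M) n
  d_lin n := lin_of (X := ofSp (Kn (n+1) M.X.E)) (Y := ofSp (Kn n M.X.E)) (dK (unM M) n).toLinearMap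
  d_cont n := (dK (unM M) n).continuous
  d_apply n x a := dK_j (unM M) n x a

/-- the bad bimodule -/
noncomputable def badM : Bimod phiAlg where
  X := ofSp LInf
  l a x := MInf.l a x
  r x a := MInf.r x a
  l_bil := bil_of (X := ofSp Phi) (Y := ofSp LInf) (Z := ofSp LInf) MInf.l MInf.l_cont
  r_bil := bil_of (X := ofSp LInf) (Y := ofSp Phi) (Z := ofSp LInf) MInf.r MInf.r_cont
  l_mul := MInf.l_mul
  r_mul := MInf.r_mul
  lr := MInf.lr

theorem main : ∃ 𝒜 : PolyAlg,
    (∀ M : Bimod 𝒜, Nonempty (Stmt.HComplex M) ∧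
      ∀ (C : Stmt.HComplex M) (k : ℕ), Stmt.VanishSucc C k) ∧ ¬ Stmt.Amenable 𝒜 := by
  refine ⟨phiAlg, fun M => ⟨⟨buC M⟩, fun C k => ?_⟩, fun h => ?_⟩
  · have h1 := vanish_transfer (unC C) (modelC (unM M)) k (by
      intro z
      constructor
      · exact vanish_model k (unM M) z
      · rintro ⟨y, rfl⟩
        exact dd_zero_model k (unM M) y)
    exact h1
  · have h1 := (h badM (buC badM)).2
    exact not_closed h1

end Pool.Agent.HochPhi.Glue
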